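import Pool.Agent.WW47.Algebra

/-!
# Algebraic independence of `y` and `e^{2y}` along a curve on which `e^{-iz}` and `e^{i z̄}` are
algebraically dependent
-/

open Complex Filter Topology Polynomial

namespace WW62

/-- `r(e^{2u}, u)` -/
noncomputable def ev2 (r : ℂ[X][X]) (w y : ℂ) : ℂ := (r.map (evalRingHom w)).eval y

lemma ev2_sum (r : ℂ[X][X]) (w y : ℂ) :
    ev2 r w y = ∑ i ∈ Finset.range (r.natDegree + 1), (r.coeff i).eval w * y ^ i := by
  unfold ev2
  rw [eval_map, eval₂_eq_sum_range]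
  rfl

/-- `u` and `e^{2u}` are algebraically independent. -/
theorem log_indep {r : ℂ[X][X]} {α β : ℝ} {U : Set ℝ} (hU : U.Infinite) (hsub : U ⊆ Set.Icc α β)
    (h : ∀ u ∈ U, ev2 r (exp (2 * u)) u = 0) : r = 0 := by
  set F : ℂ → ℂ := fun u => ev2 r (exp (2 * u)) u with hF
  have hFd : Differentiable ℂ F := by
    have : F = fun u => ∑ i ∈ Finset.range (r.natDegree + 1),
        (r.coeff i).eval (exp (2 * u)) * u ^ i := funext fun u => ev2_sum r _ _
    rw [this]
    refine Differentiable.fun_sum fun i _ => ?_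
    exact ((r.coeff i).differentiable.comp (by fun_prop)).mul (by fun_prop)
  have hFa : AnalyticOnNhd ℂ F Set.univ := fun z _ => hFd.analyticAt z
  obtain ⟨x, -, hx⟩ := hU.exists_accPt_of_subset_isCompact isCompact_Icc hsub
  have hF0 : ∀ u, F u = 0 := by
    have h1 : ∃ᶠ z in 𝓝[≠] (x : ℂ), F z = 0 := by
      rw [accPt_iff_frequently] at hx
      rw [frequently_nhdsWithin_iff]
      have h2 : Tendsto (fun y : ℝ => (y : ℂ)) (𝓝 x) (𝓝 (x : ℂ)) := continuous_ofReal.tendsto x
      refine h2.frequently (hx.mono fun y hy => ⟨?_, ?_⟩)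
      · exact h y hy.2
      · have := hy.1
        simpa using this
    have h3 := hFa.eqOn_zero_of_preconnected_of_frequently_eq_zero isPreconnected_univ
      (Set.mem_univ _) h1
    exact fun u => h3 (Set.mem_univ u)
  -- periodicity
  have hcoef : ∀ (u : ℂ), r.map (evalRingHom (exp (2 * u))) = 0 := by
    intro u
    apply eq_zero_of_infinite_isRoot
    have hinj : Function.Injective (fun n : ℤ => u + n * (Real.pi * I)) := by
      intro m n hmn
      simp only [add_right_inj] at hmn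
      have h4 : (Real.pi * I : ℂ) ≠ 0 := by
        simp [Real.pi_ne_zero]
      exact_mod_cast mul_right_cancel₀ h4 hmn
    refine (Set.infinite_range_of_injective hinj).mono ?_
    rintro _ ⟨n, rfl⟩
    have h5 := hF0 (u + n * (Real.pi * I))
    simp only [hF, ev2] at h5
    have h6 : exp (2 * (u + n * (Real.pi * I))) = exp (2 * u) := by
      have : 2 * (u + n * (Real.pi * I)) = 2 * u + n * (2 * Real.pi * I) := by ring
      rw [this, exp_add, exp_int_mul_two_pi_mul_I, mul_one]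
    rw [h6] at h5
    exact h5
  ext1 k
  rw [coeff_zero]
  apply eq_zero_of_infinite_isRoot
  have hinj : Function.Injective (fun n : ℕ => exp (2 * ((n : ℝ) : ℂ))) := by
    intro m n hmn
    have h7 : Real.exp (2 * (m : ℝ)) = Real.exp (2 * (n : ℝ)) := by
      have h8 := congrArg Complex.re hmn
      simp only at h8
      rw [← ofReal_ofNat, ← ofReal_mul, ← ofReal_mul, exp_ofReal_re, exp_ofReal_re] at h8
      exact h8
    have h9 := Real.exp_injective h7
    have : (m : ℝ) = n := by linarith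
    exact_mod_cast this
  refine (Set.infinite_range_of_injective hinj).mono ?_
  rintro _ ⟨n, rfl⟩
  have h10 := congrArg (fun p => p.coeff k) (hcoef ((n : ℝ) : ℂ))
  simp only [coeff_map, coeff_zero, coe_evalRingHom] at h10
  exact h10

/-! ### The algebra of exponential polynomials in two independent variables -/

/-- `e^{-iap} e^{ibr}` -/
noncomputable def em (ab : ℤ × ℤ) : ℂ × ℂ → ℂ :=
  fun P => exp (-(I * P.1)) ^ ab.1 * exp (I * P.2) ^ ab.2

lemma em_mul (a b : ℤ × ℤ) : em a * em b = em (a + b) := by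
  funext P
  simp only [em, Pi.mul_apply, Prod.fst_add, Prod.snd_add]
  rw [zpow_add₀ (exp_ne_zero _), zpow_add₀ (exp_ne_zero _)]
  ring

lemma em_zero : em 0 = 1 := by
  funext P; simp [em]

/-- The algebra spanned by the monomials `em`. -/
noncomputable def LP : Subalgebra ℂ (ℂ × ℂ → ℂ) :=
  (Submodule.span ℂ (Set.range em)).toSubalgebra
    (by rw [← em_zero]; exact Submodule.subset_span ⟨0, rfl⟩)
    (by
      intro f g hf hg
      induction hf using Submodule.span_induction with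
      | mem f hf =>
        obtain ⟨k, rfl⟩ := hf
        induction hg using Submodule.span_induction with
        | mem g hg =>
          obtain ⟨l, rfl⟩ := hg
          rw [em_mul]; exact Submodule.subset_span ⟨_, rfl⟩
        | zero => rw [mul_zero]; exact Submodule.zero_mem _
        | add g1 g2 _ _ h1 h2 => rw [mul_add]; exact Submodule.add_mem _ h1 h2
        | smul a g1 _ h1 => rw [mul_smul_comm]; exact Submodule.smul_mem _ _ h1
      | zero => rw [zero_mul]; exact Submodule.zero_mem _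
      | add f1 f2 _ _ h1 h2 => rw [add_mul]; exact Submodule.add_mem _ h1 h2
      | smul a f1 _ h1 => rw [smul_mul_assoc]; exact Submodule.smul_mem _ _ h1)

lemma mem_LP_iff_span (f : ℂ × ℂ → ℂ) : f ∈ LP ↔ f ∈ Submodule.span ℂ (Set.range em) :=
  Submodule.mem_toSubalgebra

lemma em_mem (k : ℤ × ℤ) : em k ∈ LP := by
  rw [mem_LP_iff_span]; exact Submodule.subset_span ⟨k, rfl⟩

/-- A nonzero element of `LP` is, up to a monomial, a nonzero polynomial in `w = e^{-ip} e^{ir}`
and `s = e^{ir}`. -/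
theorem exists_poly {f : ℂ × ℂ → ℂ} (hf : f ∈ LP) (hne : f ≠ 0) :
    ∃ (r : ℂ[X][X]) (N : ℕ), r ≠ 0 ∧ ∀ P : ℂ × ℂ,
      ev2 r (exp (-(I * P.1)) * exp (I * P.2)) (exp (I * P.2)) =
        (exp (-(I * P.1)) * exp (I * P.2)) ^ N * exp (I * P.2) ^ (2 * N) * f P := by
  classical
  rw [mem_LP_iff_span, Finsupp.mem_span_range_iff_exists_finsupp] at hf
  obtain ⟨c, hc⟩ := hf
  obtain ⟨N, hN⟩ : ∃ N : ℕ, ∀ k ∈ c.support, |k.1| ≤ (N : ℤ) ∧ |k.2| ≤ (N : ℤ) := by
    refine ⟨c.support.sup fun k => max k.1.natAbs k.2.natAbs, fun k hk => ?_⟩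
    have h1 : max k.1.natAbs k.2.natAbs ≤ c.support.sup fun k => max k.1.natAbs k.2.natAbs :=
      Finset.le_sup (f := fun k : ℤ × ℤ => max k.1.natAbs k.2.natAbs) hk
    constructor
    · rw [Int.abs_eq_natAbs]
      exact_mod_cast (le_max_left _ _).trans h1
    · rw [Int.abs_eq_natAbs]
      exact_mod_cast (le_max_right _ _).trans h1
  set r : ℂ[X][X] := ∑ k ∈ c.support,
    monomial (k.2 - k.1 + 2 * N).toNat (monomial (k.1 + N).toNat (c k)) with hr
  have hev : ∀ P : ℂ × ℂ,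
      ev2 r (exp (-(I * P.1)) * exp (I * P.2)) (exp (I * P.2)) =
        (exp (-(I * P.1)) * exp (I * P.2)) ^ N * exp (I * P.2) ^ (2 * N) * f P := by
    intro P
    set ζ := exp (-(I * P.1)) with hζ
    set s := exp (I * P.2) with hs
    have hζ0 : ζ ≠ 0 := exp_ne_zero _
    have hs0 : s ≠ 0 := exp_ne_zero _
    have h1 : f P = ∑ k ∈ c.support, c k * (ζ ^ k.1 * s ^ k.2) := by
      rw [← hc, Finsupp.sum, Finset.sum_apply]
      rfl
    rw [h1, Finset.mul_sum]
    unfold ev2
    rw [hr, Polynomial.map_sum, eval_finsetSum]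
    refine Finset.sum_congr rfl fun k hk => ?_
    obtain ⟨h2, h3⟩ := hN k hk
    rw [abs_le] at h2 h3
    rw [map_monomial, coe_evalRingHom, eval_monomial, eval_monomial]
    have e1 : (ζ * s) ^ (k.1 + (N : ℤ)).toNat = (ζ * s) ^ (k.1 + (N : ℤ)) := by
      rw [← zpow_natCast, Int.toNat_of_nonneg (by omega)]
    have e2 : s ^ (k.2 - k.1 + 2 * (N : ℤ)).toNat = s ^ (k.2 - k.1 + 2 * (N : ℤ)) := by
      rw [← zpow_natCast, Int.toNat_of_nonneg (by omega)]
    rw [e1, e2, zpow_add₀ (mul_ne_zero hζ0 hs0), zpow_add₀ hs0, zpow_sub₀ hs0, mul_zpow,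
      zpow_natCast]
    have e3 : s ^ (2 * (N : ℤ)) = s ^ (2 * N) := by
      rw [← zpow_natCast]; push_cast; rfl
    rw [e3]
    have : s ^ k.1 ≠ 0 := zpow_ne_zero _ hs0
    field_simp
  refine ⟨r, N, ?_, hev⟩
  intro hr0
  apply hne
  funext P
  have h1 := hev P
  rw [hr0] at h1
  have h2 : ev2 0 (exp (-(I * P.1)) * exp (I * P.2)) (exp (I * P.2)) = 0 := by
    simp [ev2]
  rw [h2] at h1
  have h3 : (exp (-(I * P.1)) * exp (I * P.2)) ^ N * exp (I * P.2) ^ (2 * N) ≠ 0 :=
    mul_ne_zero (pow_ne_zero _ (mul_ne_zero (exp_ne_zero _) (exp_ne_zero _)))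
      (pow_ne_zero _ (exp_ne_zero _))
  exact (mul_eq_zero.1 h1.symm).resolve_left h3

/-! ### The ultrapower -/

/-- The ultrapower of `ℂ`. -/
abbrev UK := Germ (hyperfilter ℕ : Filter ℕ) ℂ

/-- evaluation of polynomials at a sequence -/
noncomputable def evK (w : ℕ → ℂ) : ℂ[X] →+* UK :=
  (Germ.coeRingHom (hyperfilter ℕ : Filter ℕ)).comp (RingHom.pi fun n => evalRingHom (w n))

lemma eval₂_evK (w s : ℕ → ℂ) (r : ℂ[X][X]) :
    r.eval₂ (evK w) (s : UK) = ((fun n => ev2 r (w n) (s n) : ℕ → ℂ) : UK) := by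
  have h1 : r.eval₂ (evK w) (s : UK) =
      Germ.coeRingHom (hyperfilter ℕ : Filter ℕ)
        (r.eval₂ (RingHom.pi fun n => evalRingHom (w n)) s) := by
    rw [hom_eval₂]
    rfl
  rw [h1]
  have h0 : r.eval₂ (RingHom.pi fun n => evalRingHom (w n)) s =
      fun n => ev2 r (w n) (s n) := by
    funext n
    have h2 : r.eval₂ (RingHom.pi fun n => evalRingHom (w n)) s n =
        Pi.evalRingHom (fun _ : ℕ => ℂ) n (r.eval₂ (RingHom.pi fun n => evalRingHom (w n)) s) := rfl
    rw [h2, hom_eval₂]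
    unfold ev2
    rw [eval_map]
    rfl
  rw [h0]
  rfl

section

variable {z : ℕ → ℂ}

/-- the sequence `e^{2 Im z_n}` -/
noncomputable def wz (z : ℕ → ℂ) : ℕ → ℂ := fun n => exp (2 * ((z n).im : ℂ))

lemma wz_eq (z : ℕ → ℂ) (n : ℕ) :
    exp (-(I * z n)) * exp (I * (starRingEnd ℂ) (z n)) = wz z n := by
  unfold wz
  rw [← exp_add]
  congr 1
  apply Complex.ext
  · simp; ring
  · simp

/-- value of a function of two variables along the sequence, in the ultrapower -/
noncomputable def val (z : ℕ → ℂ) (f : ℂ × ℂ → ℂ) : UK :=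
  ((fun n => f (z n, (starRingEnd ℂ) (z n)) : ℕ → ℂ) : UK)

lemma val_mul (z : ℕ → ℂ) (f g : ℂ × ℂ → ℂ) : val z (f * g) = val z f * val z g := rfl

lemma val_add (z : ℕ → ℂ) (f g : ℂ × ℂ → ℂ) : val z (f + g) = val z f + val z g := rfl

lemma val_zero_of (z : ℕ → ℂ) {f : ℂ × ℂ → ℂ} (h : ∀ n, f (z n, (starRingEnd ℂ) (z n)) = 0) :
    val z f = 0 := by
  unfold val
  have : (fun n => f (z n, (starRingEnd ℂ) (z n))) = 0 := funext h
  rw [this]
  rfl

lemma coe_zpow' (x : ℕ → ℂ) (k : ℤ) : ((fun n => x n ^ k : ℕ → ℂ) : UK) = (x : UK) ^ k := by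
  obtain ⟨n, rfl | rfl⟩ := k.eq_nat_or_neg
  · simp only [zpow_natCast]; rfl
  · simp only [zpow_neg, zpow_natCast]; rfl

/-- the algebra structure of the ultrapower over polynomials in `w` -/
noncomputable abbrev algK (z : ℕ → ℂ) : Algebra ℂ[X] UK := (evK (wz z)).toAlgebra

/-- **Main algebraic lemma.** -/
theorem alg_contra {α β : ℝ} (hinj : Function.Injective fun n => (z n).im)
    (hb : ∀ n, (z n).im ∈ Set.Icc α β) {Q : ℂ × ℂ → ℂ} (hQ : Q ∈ LP) (hQ0 : Q ≠ 0)
    (hQz : ∀ n, Q (z n, (starRingEnd ℂ) (z n)) = 0) {T0 T1 T2 : ℂ × ℂ → ℂ}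
    (hT0 : T0 ∈ LP) (hT1 : T1 ∈ LP) (hT2 : T2 ∈ LP)
    (hT : ∀ n, T0 (z n, (starRingEnd ℂ) (z n)) + T1 (z n, (starRingEnd ℂ) (z n)) * (z n).im +
      T2 (z n, (starRingEnd ℂ) (z n)) * (z n).im ^ 2 = 0)
    (hne : ∀ n, T1 (z n, (starRingEnd ℂ) (z n)) ≠ 0 ∨ T2 (z n, (starRingEnd ℂ) (z n)) ≠ 0) :
    False := by
  let _ := algK z
  have hmap : algebraMap ℂ[X] UK = evK (wz z) := rfl
  -- the element `s`
  set s : ℕ → ℂ := fun n => exp (I * (starRingEnd ℂ) (z n)) with hs
  set ζ : ℕ → ℂ := fun n => exp (-(I * z n)) with hζ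
  have hsalg : IsAlgebraic ℂ[X] (s : UK) := by
    obtain ⟨r, N, hr0, hr⟩ := exists_poly hQ hQ0
    refine ⟨r, hr0, ?_⟩
    rw [aeval_def, hmap, eval₂_evK]
    have h1 : (fun n => ev2 r (wz z n) (s n)) = 0 := by
      funext n
      have h2 := hr (z n, (starRingEnd ℂ) (z n))
      simp only at h2
      rw [wz_eq] at h2
      simp only [hs]
      rw [h2, hQz n, mul_zero]
      rfl
    rw [h1]
    rfl
  have hwalg : IsAlgebraic ℂ[X] ((wz z : ℕ → ℂ) : UK) := by
    have h1 : ((wz z : ℕ → ℂ) : UK) = algebraMap ℂ[X] UK X := by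
      rw [hmap]
      unfold evK
      simp only [RingHom.comp_apply]
      have h2 : (RingHom.pi fun n => evalRingHom (wz z n)) X = wz z := by
        funext n
        simp
      rw [h2]
      rfl
    rw [h1]
    exact isAlgebraic_algebraMap _
  have hsne : (s : UK) ≠ 0 := by
    intro h0
    have h1 : ((s : ℕ → ℂ) : UK) = ((0 : ℕ → ℂ) : UK) := h0
    rw [Germ.coe_eq] at h1
    obtain ⟨n, hn⟩ := h1.exists
    exact exp_ne_zero _ hn
  have hζeq : (ζ : UK) = ((wz z : ℕ → ℂ) : UK) * (s : UK)⁻¹ := by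
    rw [eq_mul_inv_iff_mul_eq₀ hsne]
    have h1 : (ζ : UK) * (s : UK) = ((ζ * s : ℕ → ℂ) : UK) := rfl
    rw [h1]
    congr 1
    funext n
    exact wz_eq z n
  have hζalg : IsAlgebraic ℂ[X] (ζ : UK) := by
    rw [hζeq]
    exact hwalg.mul (IsAlgebraic.inv_iff.2 hsalg)
  have hζne : (ζ : UK) ≠ 0 := by
    intro h0
    have h1 : ((ζ : ℕ → ℂ) : UK) = ((0 : ℕ → ℂ) : UK) := h0
    rw [Germ.coe_eq] at h1
    obtain ⟨n, hn⟩ := h1.exists
    exact exp_ne_zero _ hn
  have hzpow : ∀ {x : UK}, IsAlgebraic ℂ[X] x → ∀ k : ℤ, IsAlgebraic ℂ[X] (x ^ k) := by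
    intro x hx k
    obtain ⟨n, rfl | rfl⟩ := k.eq_nat_or_neg
    · rw [zpow_natCast]; exact hx.pow n
    · rw [zpow_neg, zpow_natCast]; exact IsAlgebraic.inv_iff.2 (hx.pow n)
  have hem : ∀ k : ℤ × ℤ, IsAlgebraic ℂ[X] (val z (em k)) := by
    intro k
    have h1 : val z (em k) = (ζ : UK) ^ k.1 * (s : UK) ^ k.2 := by
      rw [← coe_zpow', ← coe_zpow']
      rfl
    rw [h1]
    exact (hzpow hζalg _).mul (hzpow hsalg _)
  have hLP : ∀ f ∈ LP, IsAlgebraic ℂ[X] (val z f) := by
    intro f hf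
    rw [mem_LP_iff_span] at hf
    induction hf using Submodule.span_induction with
    | mem f hf => obtain ⟨k, rfl⟩ := hf; exact hem k
    | zero =>
      have : val z 0 = 0 := rfl
      rw [this]; exact isAlgebraic_zero
    | add f g _ _ h1 h2 => rw [val_add]; exact h1.add h2
    | smul a f _ h1 =>
      have h2 : val z (a • f) = algebraMap ℂ[X] UK (C a) * val z f := by
        rw [hmap]
        unfold evK
        simp only [RingHom.comp_apply]
        have h3 : (RingHom.pi fun n => evalRingHom (wz z n)) (C a) = fun _ => a := by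
          funext n
          simp
        rw [h3]
        rfl
      rw [h2]
      exact (isAlgebraic_algebraMap _).mul h1
  -- `y` is algebraic
  set y : ℕ → ℂ := fun n => ((z n).im : ℂ) with hy
  have hyrel : val z T0 + val z T1 * (y : UK) + val z T2 * (y : UK) ^ 2 = 0 := by
    have h1 : (fun n => T0 (z n, (starRingEnd ℂ) (z n)) +
        T1 (z n, (starRingEnd ℂ) (z n)) * (z n).im +
        T2 (z n, (starRingEnd ℂ) (z n)) * (z n).im ^ 2) = (0 : ℕ → ℂ) := funext hT
    have h2 := congrArg (fun f : ℕ → ℂ => (f : UK)) h1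
    exact h2
  have hcoefne : val z T1 ≠ 0 ∨ val z T2 ≠ 0 := by
    by_contra hcon
    push Not at hcon
    obtain ⟨h1, h2⟩ := hcon
    have h1' : ((fun n => T1 (z n, (starRingEnd ℂ) (z n)) : ℕ → ℂ) : UK) =
      ((0 : ℕ → ℂ) : UK) := h1
    have h2' : ((fun n => T2 (z n, (starRingEnd ℂ) (z n)) : ℕ → ℂ) : UK) =
      ((0 : ℕ → ℂ) : UK) := h2
    rw [Germ.coe_eq] at h1' h2'
    obtain ⟨n, hn1, hn2⟩ := (h1'.and h2').exists
    rcases hne n with h | h
    · exact h hn1
    · exact h hn2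
  have hyalg : IsAlgebraic ℂ[X] (y : UK) := by
    let S := Subalgebra.algebraicClosure ℂ[X] UK
    have halg : IsAlgebraic S (y : UK) := by
      refine ⟨C ⟨val z T0, hLP _ hT0⟩ + C ⟨val z T1, hLP _ hT1⟩ * X + C ⟨val z T2, hLP _ hT2⟩ * X ^ 2,
        ?_, ?_⟩
      · intro h0
        rcases hcoefne with h | h
        · apply h
          have h1 := congrArg (fun p => ((p.coeff 1 : S) : UK)) h0
          simp [coeff_C] at h1
          exact h1
        · apply h
          have h1 := congrArg (fun p => ((p.coeff 2 : S) : UK)) h0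
          simp [coeff_X] at h1
          exact h1
      · simp only [map_add, map_mul, map_pow, aeval_X, aeval_C]
        exact hyrel
    exact halg.restrictScalars ℂ[X]
  obtain ⟨r, hr0, hr⟩ := hyalg
  rw [aeval_def, hmap, eval₂_evK] at hr
  have hr' : ((fun n => ev2 r (wz z n) (y n) : ℕ → ℂ) : UK) = ((0 : ℕ → ℂ) : UK) := hr
  rw [Germ.coe_eq] at hr'
  apply hr0
  have hinf : {n : ℕ | ev2 r (wz z n) (y n) = 0}.Infinite := by
    intro hfin
    exact hfin.notMem_hyperfilter hr'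
  refine log_indep (U := (fun n => (z n).im) '' {n : ℕ | ev2 r (wz z n) (y n) = 0})
    (hinf.image hinj.injOn) (α := α) (β := β) ?_ ?_
  · rintro _ ⟨n, -, rfl⟩
    exact hb n
  · rintro _ ⟨n, hn, rfl⟩
    exact hn

end

end WW62
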