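import Pool.Agent.WW62.Alg

/-!
# Exponential sums with time dependent coefficients; the two relations on the free surface
-/

open Complex Filter Topology Set

namespace WW62

/-- `∑_{|k| ≤ M} c_k e^{-ikz}` -/
noncomputable def ep (M : ℕ) (c : ℤ → ℂ) (z : ℂ) : ℂ :=
  ∑ k ∈ Finset.Icc (-(M : ℤ)) M, c k * exp (-(I * k * z))

/-- coefficients of the derivative -/
noncomputable def dz (c : ℤ → ℂ) : ℤ → ℂ := fun k => -(I * k) * c k

/-- derivative along a path, with moving coefficients -/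
lemma hasDerivAt_ep (M : ℕ) {c : ℝ → ℤ → ℂ} {c' : ℤ → ℂ} {z : ℝ → ℂ} {z' : ℂ} {s : ℝ}
    (hc : ∀ k, HasDerivAt (fun s => c s k) (c' k) s) (hz : HasDerivAt z z' s) :
    HasDerivAt (fun s => ep M (c s) (z s)) (ep M c' (z s) + ep M (dz (c s)) (z s) * z') s := by
  unfold ep
  have h : ∀ k ∈ Finset.Icc (-(M : ℤ)) M,
      HasDerivAt (fun s => c s k * exp (-(I * k * z s)))
        (c' k * exp (-(I * k * z s)) + dz (c s) k * exp (-(I * k * z s)) * z') s := by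
    intro k _
    have h1 : HasDerivAt (fun s => -(I * k * z s)) (-(I * k * z')) s := (hz.const_mul (I * k)).neg
    have h2 := (hc k).mul h1.cexp
    refine h2.congr_deriv ?_
    unfold dz
    ring
  have := HasDerivAt.fun_sum h
  refine this.congr_deriv ?_
  rw [Finset.sum_add_distrib, Finset.sum_mul]

lemma hasDerivAt_ep_z (M : ℕ) (c : ℤ → ℂ) (z : ℂ) : HasDerivAt (ep M c) (ep M (dz c) z) z := by
  unfold ep
  have h : ∀ k ∈ Finset.Icc (-(M : ℤ)) M,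
      HasDerivAt (fun z => c k * exp (-(I * k * z))) (dz c k * exp (-(I * k * z))) z := by
    intro k _
    have h1 : HasDerivAt (fun z : ℂ => -(I * k * z)) (-(I * k)) z := by
      have h0 := ((hasDerivAt_id' z).const_mul (I * (k : ℂ))).fun_neg
      rwa [mul_one] at h0
    exact ((h1.cexp).const_mul (c k)).congr_deriv (by unfold dz; ring)
  exact HasDerivAt.fun_sum h

lemma differentiable_ep (M : ℕ) (c : ℤ → ℂ) : Differentiable ℂ (ep M c) :=
  fun z => (hasDerivAt_ep_z M c z).differentiableAt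

lemma hasDerivAt_re {g : ℝ → ℂ} {g' : ℂ} {s : ℝ} (h : HasDerivAt g g' s) :
    HasDerivAt (fun s => (g s).re) g'.re s := by
  have := reCLM.hasFDerivAt.comp_hasDerivAt s h
  exact this

lemma hasDerivAt_im {g : ℝ → ℂ} {g' : ℂ} {s : ℝ} (h : HasDerivAt g g' s) :
    HasDerivAt (fun s => (g s).im) g'.im s := by
  have := imCLM.hasFDerivAt.comp_hasDerivAt s h
  exact this

/-- The Bernoulli expression (without the Bernoulli constant), with `c` the coefficients of the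
complex potential, `c1` those of its time derivative. -/
noncomputable def Ber (M : ℕ) (g γ : ℝ) (c c1 : ℤ → ℂ) (z : ℂ) (y : ℝ) : ℝ :=
  (ep M c1 z).re + ((ep M (dz c) z).re ^ 2 + (ep M (dz c) z).im ^ 2) / 2
    - γ * y * (ep M (dz c) z).re + γ * (ep M c z).im + g * y

/-- derivative of the Bernoulli expression along a path -/
lemma hasDerivAt_Ber (M : ℕ) (g γ : ℝ) {c c1 : ℝ → ℤ → ℂ} {c' c1' : ℤ → ℂ} {z : ℝ → ℂ} {z' : ℂ}
    {y : ℝ → ℝ} {y' : ℝ} {s : ℝ}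
    (hc : ∀ k, HasDerivAt (fun s => c s k) (c' k) s)
    (hc1 : ∀ k, HasDerivAt (fun s => c1 s k) (c1' k) s)
    (hz : HasDerivAt z z' s) (hy : HasDerivAt y y' s) :
    HasDerivAt (fun s => Ber M g γ (c s) (c1 s) (z s) (y s))
      ((ep M c1' (z s) + ep M (dz (c1 s)) (z s) * z').re
        + (ep M (dz (c s)) (z s)).re * (ep M (dz c') (z s) + ep M (dz (dz (c s))) (z s) * z').re
        + (ep M (dz (c s)) (z s)).im * (ep M (dz c') (z s) + ep M (dz (dz (c s))) (z s) * z').im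
        - γ * (y' * (ep M (dz (c s)) (z s)).re
          + y s * (ep M (dz c') (z s) + ep M (dz (dz (c s))) (z s) * z').re)
        + γ * (ep M c' (z s) + ep M (dz (c s)) (z s) * z').im + g * y') s := by
  have hcd : ∀ k, HasDerivAt (fun s => dz (c s) k) (dz c' k) s := fun k => (hc k).const_mul _
  have h1 := hasDerivAt_re (hasDerivAt_ep M hc1 hz)
  have hv := hasDerivAt_ep M hcd hz
  have h2 := hasDerivAt_re hv
  have h3 := hasDerivAt_im hv
  have h4 := hasDerivAt_im (hasDerivAt_ep M hc hz)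
  have h5 := ((((h1.add (((h2.pow 2).add (h3.pow 2)).div_const 2)).sub
    ((hy.const_mul γ).mul h2)).add (h4.const_mul γ)).add (hy.const_mul g))
  refine h5.congr_deriv ?_
  push_cast
  ring

/-- The second relation on the surface (real form): `D_t` of the Bernoulli relation. -/
lemma relation2 {γ g y pt ηt ηx : ℝ} {v v1 vt ftt f1 : ℂ}
    (hkin : ηt = -v.im - ηx * (v.re - γ * y))
    (hx : ((vt * (1 + ηx * I)).re + v.re * (v1 * (1 + ηx * I)).re + v.im * (v1 * (1 + ηx * I)).im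
        - γ * (ηx * v.re + y * (v1 * (1 + ηx * I)).re) + γ * (v * (1 + ηx * I)).im + g * ηx) = 0)
    (ht : ((ftt + vt * (ηt * I)).re + v.re * (vt + v1 * (ηt * I)).re
        + v.im * (vt + v1 * (ηt * I)).im - γ * (ηt * v.re + y * (vt + v1 * (ηt * I)).re)
        + γ * (f1 + v * (ηt * I)).im + g * ηt) = pt) :
    ftt.re + 2 * (vt.re * (v.re - γ * y) + vt.im * v.im)
      + (v1.re * ((v.re - γ * y) ^ 2 - v.im ^ 2) + 2 * v1.im * (v.re - γ * y) * v.im)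
      + γ * f1.im + γ * v.re * v.im - γ ^ 2 * y * v.im - g * v.im = pt := by
  simp only [mul_re, mul_im, add_re, add_im, one_re, one_im, ofReal_re, ofReal_im, I_re, I_im,
    mul_zero, mul_one, sub_zero, add_zero, zero_add] at hx ht
  rw [hkin] at ht
  linear_combination ht + (v.re - γ * y) * hx

/-! ### The relations as elements of `LP` -/

/-- conjugated coefficients -/
noncomputable def bar (c : ℤ → ℂ) : ℤ → ℂ := fun k => (starRingEnd ℂ) (c k)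

lemma tp_bar (M : ℕ) (c : ℤ → ℂ) (z : ℂ) :
    WW47.tp M (bar c) ((starRingEnd ℂ) z) = (starRingEnd ℂ) (ep M c z) := by
  unfold WW47.tp ep
  rw [map_sum]
  refine Finset.sum_congr rfl fun k _ => ?_
  rw [map_mul, ← exp_conj]
  unfold bar
  congr 2
  simp

/-- function of the first variable -/
noncomputable def L1 (M : ℕ) (c : ℤ → ℂ) : ℂ × ℂ → ℂ := fun P => ep M c P.1

/-- (conjugated) function of the second variable -/
noncomputable def L2 (M : ℕ) (c : ℤ → ℂ) : ℂ × ℂ → ℂ := fun P => WW47.tp M (bar c) P.2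

lemma L1_mem (M : ℕ) (c : ℤ → ℂ) : L1 M c ∈ LP := by
  have h : L1 M c = ∑ k ∈ Finset.Icc (-(M : ℤ)) M, c k • em (k, 0) := by
    funext P
    simp only [L1, ep, em, Finset.sum_apply, Pi.smul_apply, smul_eq_mul, zpow_zero, mul_one]
    refine Finset.sum_congr rfl fun k _ => ?_
    rw [← exp_int_mul]
    congr 2
    ring
  rw [h]
  exact Subalgebra.sum_mem _ fun k _ => Subalgebra.smul_mem _ (em_mem _) _

lemma L2_mem (M : ℕ) (c : ℤ → ℂ) : L2 M c ∈ LP := by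
  have h : L2 M c = ∑ k ∈ Finset.Icc (-(M : ℤ)) M, bar c k • em (0, k) := by
    funext P
    simp only [L2, WW47.tp, em, Finset.sum_apply, Pi.smul_apply, smul_eq_mul, zpow_zero, one_mul]
    refine Finset.sum_congr rfl fun k _ => ?_
    rw [← exp_int_mul]
    congr 2
    ring
  rw [h]
  exact Subalgebra.sum_mem _ fun k _ => Subalgebra.smul_mem _ (em_mem _) _

lemma const_mem (a : ℂ) : (fun _ : ℂ × ℂ => a) ∈ LP := by
  have : (fun _ : ℂ × ℂ => a) = algebraMap ℂ (ℂ × ℂ → ℂ) a := rfl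
  rw [this]; exact LP.algebraMap_mem a

lemma L1_val (M : ℕ) (c : ℤ → ℂ) (z : ℂ) : L1 M c (z, (starRingEnd ℂ) z) = ep M c z := rfl

lemma L2_val (M : ℕ) (c : ℤ → ℂ) (z : ℂ) :
    L2 M c (z, (starRingEnd ℂ) z) = (starRingEnd ℂ) (ep M c z) := tp_bar M c z

/-- coefficient of `y` in the first relation -/
noncomputable def RA (M : ℕ) (g γ : ℝ) (c : ℤ → ℂ) : ℂ × ℂ → ℂ :=
  (fun _ => (g : ℂ)) - ((γ : ℂ) / 2) • (L1 M (dz c) + L2 M (dz c))

/-- the rest of the first relation -/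
noncomputable def RC (M : ℕ) (γ p : ℝ) (c c1 : ℤ → ℂ) : ℂ × ℂ → ℂ :=
  (1 / 2 : ℂ) • (L1 M c1 + L2 M c1) + (1 / 2 : ℂ) • (L1 M (dz c) * L2 M (dz c))
    + ((γ : ℂ) / (2 * I)) • (L1 M c - L2 M c) - fun _ => (p : ℂ)

/-- second relation, coefficient of `1` -/
noncomputable def S0 (M : ℕ) (g γ p : ℝ) (c c1 c2 : ℤ → ℂ) : ℂ × ℂ → ℂ :=
  (1 / 2 : ℂ) • (L1 M c2 + L2 M c2)
    + (L1 M (dz c1) * L2 M (dz c) + L2 M (dz c1) * L1 M (dz c))
    + (1 / 2 : ℂ) • (L1 M (dz (dz c)) * (L2 M (dz c) * L2 M (dz c))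
      + L2 M (dz (dz c)) * (L1 M (dz c) * L1 M (dz c)))
    + ((γ : ℂ) / (2 * I)) • (L1 M c1 - L2 M c1)
    + ((γ : ℂ) / (4 * I)) • (L1 M (dz c) * L1 M (dz c) - L2 M (dz c) * L2 M (dz c))
    + ((g : ℂ) / (2 * I)) • (L2 M (dz c) - L1 M (dz c)) - fun _ => (p : ℂ)

/-- second relation, coefficient of `y` -/
noncomputable def S1 (M : ℕ) (γ : ℝ) (c c1 : ℤ → ℂ) : ℂ × ℂ → ℂ :=
  (-(γ : ℂ)) • (L1 M (dz c1) + L2 M (dz c1))
    + (-(γ : ℂ)) • (L1 M (dz (dz c)) * L2 M (dz c) + L2 M (dz (dz c)) * L1 M (dz c))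
    + (-((γ : ℂ) ^ 2 / (2 * I))) • (L1 M (dz c) - L2 M (dz c))

/-- second relation, coefficient of `y ^ 2` -/
noncomputable def S2 (M : ℕ) (γ : ℝ) (c : ℤ → ℂ) : ℂ × ℂ → ℂ :=
  ((γ : ℂ) ^ 2 / 2) • (L1 M (dz (dz c)) + L2 M (dz (dz c)))

lemma RA_mem (M : ℕ) (g γ : ℝ) (c : ℤ → ℂ) : RA M g γ c ∈ LP :=
  LP.sub_mem (const_mem _) (LP.smul_mem (LP.add_mem (L1_mem _ _) (L2_mem _ _)) _)

lemma RC_mem (M : ℕ) (γ p : ℝ) (c c1 : ℤ → ℂ) : RC M γ p c c1 ∈ LP :=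
  LP.sub_mem (LP.add_mem (LP.add_mem (LP.smul_mem (LP.add_mem (L1_mem _ _) (L2_mem _ _)) _)
    (LP.smul_mem (LP.mul_mem (L1_mem _ _) (L2_mem _ _)) _))
    (LP.smul_mem (LP.sub_mem (L1_mem _ _) (L2_mem _ _)) _)) (const_mem _)

lemma S0_mem (M : ℕ) (g γ p : ℝ) (c c1 c2 : ℤ → ℂ) : S0 M g γ p c c1 c2 ∈ LP := by
  unfold S0
  refine LP.sub_mem (LP.add_mem (LP.add_mem (LP.add_mem (LP.add_mem (LP.add_mem ?_ ?_) ?_) ?_) ?_)
    ?_) (const_mem _)
  · exact LP.smul_mem (LP.add_mem (L1_mem _ _) (L2_mem _ _)) _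
  · exact LP.add_mem (LP.mul_mem (L1_mem _ _) (L2_mem _ _)) (LP.mul_mem (L2_mem _ _) (L1_mem _ _))
  · exact LP.smul_mem (LP.add_mem (LP.mul_mem (L1_mem _ _) (LP.mul_mem (L2_mem _ _) (L2_mem _ _)))
      (LP.mul_mem (L2_mem _ _) (LP.mul_mem (L1_mem _ _) (L1_mem _ _)))) _
  · exact LP.smul_mem (LP.sub_mem (L1_mem _ _) (L2_mem _ _)) _
  · exact LP.smul_mem (LP.sub_mem (LP.mul_mem (L1_mem _ _) (L1_mem _ _))
      (LP.mul_mem (L2_mem _ _) (L2_mem _ _))) _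
  · exact LP.smul_mem (LP.sub_mem (L2_mem _ _) (L1_mem _ _)) _

lemma S1_mem (M : ℕ) (γ : ℝ) (c c1 : ℤ → ℂ) : S1 M γ c c1 ∈ LP := by
  unfold S1
  refine LP.add_mem (LP.add_mem ?_ ?_) ?_
  · exact LP.smul_mem (LP.add_mem (L1_mem _ _) (L2_mem _ _)) _
  · exact LP.smul_mem (LP.add_mem (LP.mul_mem (L1_mem _ _) (L2_mem _ _))
      (LP.mul_mem (L2_mem _ _) (L1_mem _ _))) _
  · exact LP.smul_mem (LP.sub_mem (L1_mem _ _) (L2_mem _ _)) _

lemma S2_mem (M : ℕ) (γ : ℝ) (c : ℤ → ℂ) : S2 M γ c ∈ LP :=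
  LP.smul_mem (LP.add_mem (L1_mem _ _) (L2_mem _ _)) _

/-- a complex number as real and imaginary part, and its conjugate -/
lemma re_im_conj (w : ℂ) : w = (w.re : ℂ) + (w.im : ℂ) * I ∧
    (starRingEnd ℂ) w = (w.re : ℂ) - (w.im : ℂ) * I := by
  constructor
  · exact (re_add_im w).symm
  · apply Complex.ext <;> simp

/-- first relation, complex form -/
lemma relation1_c (M : ℕ) {g γ p y : ℝ} {c c1 : ℤ → ℂ} {z : ℂ} (h : Ber M g γ c c1 z y = p) :
    RC M γ p c c1 (z, (starRingEnd ℂ) z) + RA M g γ c (z, (starRingEnd ℂ) z) * y = 0 := by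
  unfold Ber at h
  unfold RC RA
  simp only [Pi.add_apply, Pi.sub_apply, Pi.mul_apply, Pi.smul_apply, smul_eq_mul, L1_val, L2_val]
  obtain ⟨e1, e1'⟩ := re_im_conj (ep M c1 z)
  obtain ⟨e2, e2'⟩ := re_im_conj (ep M (dz c) z)
  obtain ⟨e3, e3'⟩ := re_im_conj (ep M c z)
  set a1 := (ep M c1 z).re
  set a2 := (ep M c1 z).im
  set b1 := (ep M (dz c) z).re
  set b2 := (ep M (dz c) z).im
  set d1 := (ep M c z).re
  set d2 := (ep M c z).im
  rw [e1', e2', e3', e1, e2, e3]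
  have h' : (a1 : ℂ) + ((b1 : ℂ) ^ 2 + (b2 : ℂ) ^ 2) / 2 - γ * y * b1 + γ * d2 + g * y = p := by
    rw [← h]; push_cast; ring
  have hI : (γ : ℂ) / (2 * I) = -(γ : ℂ) * I / 2 := by
    field_simp
    rw [I_sq]; ring
  rw [hI]
  linear_combination h' - ((b2 : ℂ) ^ 2 / 2 + γ * d2) * I_sq

/-- second relation, complex form -/
lemma relation2_c (M : ℕ) {g γ p y : ℝ} {c c1 c2 : ℤ → ℂ} {z : ℂ}
    (h : (ep M c2 z).re + 2 * ((ep M (dz c1) z).re * ((ep M (dz c) z).re - γ * y)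
        + (ep M (dz c1) z).im * (ep M (dz c) z).im)
      + ((ep M (dz (dz c)) z).re * (((ep M (dz c) z).re - γ * y) ^ 2 - (ep M (dz c) z).im ^ 2)
        + 2 * (ep M (dz (dz c)) z).im * ((ep M (dz c) z).re - γ * y) * (ep M (dz c) z).im)
      + γ * (ep M c1 z).im + γ * (ep M (dz c) z).re * (ep M (dz c) z).im
      - γ ^ 2 * y * (ep M (dz c) z).im - g * (ep M (dz c) z).im = p) :
    S0 M g γ p c c1 c2 (z, (starRingEnd ℂ) z) + S1 M γ c c1 (z, (starRingEnd ℂ) z) * y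
      + S2 M γ c (z, (starRingEnd ℂ) z) * y ^ 2 = 0 := by
  unfold S0 S1 S2
  simp only [Pi.add_apply, Pi.sub_apply, Pi.mul_apply, Pi.smul_apply, smul_eq_mul, L1_val, L2_val]
  obtain ⟨e1, e1'⟩ := re_im_conj (ep M c1 z)
  obtain ⟨e2, e2'⟩ := re_im_conj (ep M (dz c) z)
  obtain ⟨e3, e3'⟩ := re_im_conj (ep M c2 z)
  obtain ⟨e4, e4'⟩ := re_im_conj (ep M (dz c1) z)
  obtain ⟨e5, e5'⟩ := re_im_conj (ep M (dz (dz c)) z)
  generalize (ep M c1 z).re = a1 at *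
  generalize (ep M c1 z).im = a2 at *
  generalize (ep M (dz c) z).re = b1 at *
  generalize (ep M (dz c) z).im = b2 at *
  generalize (ep M c2 z).re = d1 at *
  generalize (ep M c2 z).im = d2 at *
  generalize (ep M (dz c1) z).re = t1 at *
  generalize (ep M (dz c1) z).im = t2 at *
  generalize (ep M (dz (dz c)) z).re = u1 at *
  generalize (ep M (dz (dz c)) z).im = u2 at *
  rw [e1', e2', e3', e4', e5', e1, e2, e3, e4, e5]
  have h' : (d1 : ℂ) + 2 * ((t1 : ℂ) * (b1 - γ * y) + t2 * b2)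
      + (u1 * ((b1 - γ * y) ^ 2 - (b2 : ℂ) ^ 2) + 2 * u2 * (b1 - γ * y) * b2)
      + γ * a2 + γ * b1 * b2 - γ ^ 2 * y * b2 - g * b2 = p := by
    rw [← h]; push_cast; ring
  have hI : (γ : ℂ) / (2 * I) = -(γ : ℂ) * I / 2 := by
    field_simp
    rw [I_sq]; ring
  have hI4 : (γ : ℂ) / (4 * I) = -(γ : ℂ) * I / 4 := by
    field_simp
    rw [I_sq]; ring
  have hIg : (g : ℂ) / (2 * I) = -(g : ℂ) * I / 2 := by
    field_simp
    rw [I_sq]; ring
  have hI2 : (γ : ℂ) ^ 2 / (2 * I) = -(γ : ℂ) ^ 2 * I / 2 := by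
    field_simp
    rw [I_sq]; ring
  rw [hI, hI4, hIg, hI2]
  linear_combination h' + (-2 * (t2 : ℂ) * b2 + u1 * b2 ^ 2 - 2 * u2 * b1 * b2 - γ * a2
    - γ * b1 * b2 + g * b2 + 2 * γ * y * u2 * b2 + γ ^ 2 * y * b2) * I_sq

end WW62
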