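import Pool.Agent.WW62.Nonzero

/-!
# At a fixed time the surface is flat
-/

open Complex Filter Topology Set

namespace WW62

lemma exists_seq {f f' : ℝ → ℝ} (hf : ∀ x, HasDerivAt f (f' x) x) {J : Set ℝ} (hJ : IsOpen J)
    {x1 : ℝ} (hx1 : x1 ∈ J) (hne : ∀ x ∈ J, f' x ≠ 0) :
    ∃ (xs : ℕ → ℝ) (α β : ℝ), (∀ n, xs n ∈ J) ∧ Function.Injective (fun n => f (xs n)) ∧
      ∀ n, f (xs n) ∈ Icc α β := by
  obtain ⟨r, hr, hrJ⟩ := Metric.isOpen_iff.1 hJ x1 hx1
  rw [Real.ball_eq_Ioo] at hrJ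
  have hcont : Continuous f := by
    rw [continuous_iff_continuousAt]
    exact fun x => (hf x).continuousAt
  have hinj : ∀ x ∈ Ioo (x1 - r) (x1 + r), ∀ y ∈ Ioo (x1 - r) (x1 + r), x < y → f x ≠ f y := by
    intro x hx y hy hxy heq
    obtain ⟨c, hc, hc'⟩ := exists_deriv_eq_zero hxy hcont.continuousOn heq
    rw [(hf c).deriv] at hc'
    exact hne c (hrJ ⟨hx.1.trans hc.1, hc.2.trans hy.2⟩) hc'
  set xs : ℕ → ℝ := fun n => x1 + r / ((n : ℝ) + 2) with hxs
  have hmem : ∀ n, xs n ∈ Icc x1 (x1 + r / 2) := by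
    intro n
    constructor
    · simp only [hxs]
      have : 0 ≤ r / ((n : ℝ) + 2) := by positivity
      linarith
    · simp only [hxs]
      have : r / ((n : ℝ) + 2) ≤ r / 2 := by
        apply div_le_div_of_nonneg_left hr.le (by norm_num)
        have : (0 : ℝ) ≤ n := Nat.cast_nonneg n
        linarith
      linarith
  have hmem' : ∀ n, xs n ∈ Ioo (x1 - r) (x1 + r) := fun n =>
    ⟨by linarith [(hmem n).1], by linarith [(hmem n).2]⟩
  have hK := isCompact_Icc (a := x1) (b := x1 + r / 2) |>.image hcont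
  obtain ⟨β, hβ⟩ := hK.bddAbove
  obtain ⟨α, hα⟩ := hK.bddBelow
  refine ⟨xs, α, β, fun n => hrJ (hmem' n), ?_, fun n => ⟨?_, ?_⟩⟩
  · intro m n hmn
    simp only at hmn
    by_contra hne'
    have hxne : xs m ≠ xs n := by
      intro h
      simp only [hxs, add_right_inj] at h
      have hm : (0 : ℝ) < (m : ℝ) + 2 := by positivity
      have hn : (0 : ℝ) < (n : ℝ) + 2 := by positivity
      rw [div_eq_div_iff hm.ne' hn.ne'] at h
      have h2 := mul_left_cancel₀ hr.ne' h
      have h3 : (n : ℝ) = m := by linarith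
      exact hne' (by exact_mod_cast h3.symm)
    rcases lt_or_gt_of_ne hxne with h | h
    · exact hinj _ (hmem' m) _ (hmem' n) h hmn
    · exact hinj _ (hmem' n) _ (hmem' m) h hmn.symm
  · exact hα ⟨_, hmem n, rfl⟩
  · exact hβ ⟨_, hmem n, rfl⟩

/-- a point of the surface -/
noncomputable def pt (f : ℝ → ℝ) (x : ℝ) : ℂ := x + f x * I

lemma pt_im (f : ℝ → ℝ) (x : ℝ) : (pt f x).im = f x := by simp [pt]

lemma pt_re (f : ℝ → ℝ) (x : ℝ) : (pt f x).re = x := by simp [pt]

lemma hasDerivAt_pt {f f' : ℝ → ℝ} {x : ℝ} (hf : HasDerivAt f (f' x) x) :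
    HasDerivAt (pt f) (1 + f' x * I) x := by
  unfold pt
  exact (hasDerivAt_id x).ofReal_comp.add (hf.ofReal_comp.mul_const I)

lemma LP_cont {F : ℂ × ℂ → ℂ} (hF : F ∈ LP) : Continuous F := by
  rw [mem_LP_iff_span] at hF
  induction hF using Submodule.span_induction with
  | mem f hf =>
    obtain ⟨k, rfl⟩ := hf
    unfold em
    refine Continuous.mul ?_ ?_
    · exact Continuous.zpow₀ (by fun_prop) _ fun _ => Or.inl (exp_ne_zero _)
    · exact Continuous.zpow₀ (by fun_prop) _ fun _ => Or.inl (exp_ne_zero _)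
  | zero => exact continuous_const
  | add f g _ _ h1 h2 => exact h1.add h2
  | smul a f _ h1 => exact h1.const_smul a

theorem flat_at {M K : ℕ} (hK : 1 ≤ K) (hKM : K ≤ M) {g : ℝ} (hg : 0 < g) {γ p p' : ℝ}
    {c c1 c2 : ℤ → ℂ}
    (hc : ∀ k : ℤ, (K : ℤ) < k → c k = 0) (hc1 : ∀ k : ℤ, (K : ℤ) < k → c1 k = 0)
    (hc2 : ∀ k : ℤ, (K : ℤ) < k → c2 k = 0) (hcK : c K ≠ 0)
    {f f' : ℝ → ℝ} (hf : ∀ x, HasDerivAt f (f' x) x) (hf' : Continuous f')
    (h1 : ∀ x, RC M γ p c c1 (pt f x, (starRingEnd ℂ) (pt f x)) +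
      RA M g γ c (pt f x, (starRingEnd ℂ) (pt f x)) * f x = 0)
    (h2 : ∀ x, S0 M g γ p' c c1 c2 (pt f x, (starRingEnd ℂ) (pt f x)) +
      S1 M γ c c1 (pt f x, (starRingEnd ℂ) (pt f x)) * f x +
      S2 M γ c (pt f x, (starRingEnd ℂ) (pt f x)) * (f x) ^ 2 = 0) :
    ∀ x, f x = f 0 := by
  by_contra hcon
  push Not at hcon
  -- a point with nonzero slope
  obtain ⟨x0, hx0⟩ : ∃ x0, f' x0 ≠ 0 := by
    by_contra hall
    push Not at hall
    obtain ⟨x, hx⟩ := hcon
    exact hx (is_const_of_deriv_eq_zero (fun x => (hf x).differentiableAt)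
      (fun x => by rw [(hf x).deriv]; exact hall x) x 0)
  have hfc : Continuous f := by
    rw [continuous_iff_continuousAt]
    exact fun x => (hf x).continuousAt
  have hptc : Continuous (pt f) := by
    unfold pt
    fun_prop
  have hcomp : ∀ {F : ℂ × ℂ → ℂ}, F ∈ LP → Continuous fun x : ℝ =>
      F (pt f x, (starRingEnd ℂ) (pt f x)) := fun hF =>
    (LP_cont hF).comp (hptc.prodMk (continuous_conj.comp hptc))
  have hQ := QQ_mem M g γ p p' c c1 c2
  have hQ0 := QQ_ne hK hKM hg γ p p' hc hc1 hc2 hcK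
  have hQz : ∀ x : ℝ, QQ M g γ p p' c c1 c2 (pt f x, (starRingEnd ℂ) (pt f x)) = 0 :=
    fun x => QQ_zero M (h1 x) (h2 x)
  -- case 1
  have case1 : ∀ x, f' x ≠ 0 → RA M g γ c (pt f x, (starRingEnd ℂ) (pt f x)) = 0 := by
    intro x1 hx1
    by_contra hA
    obtain ⟨xs, α, β, hxs, hinj, hbd⟩ := exists_seq hf
      (J := {x | f' x ≠ 0} ∩ {x | RA M g γ c (pt f x, (starRingEnd ℂ) (pt f x)) ≠ 0})
      ((isOpen_ne_fun hf' continuous_const).inter
        (isOpen_ne_fun (hcomp (RA_mem _ _ _ _)) continuous_const)) ⟨hx1, hA⟩ (fun x hx => hx.1)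
    refine alg_contra (z := fun n => pt f (xs n)) (α := α) (β := β) ?_ ?_ hQ hQ0
      (fun n => hQz _) (RC_mem M γ p c c1) (RA_mem M g γ c) (zero_mem LP) ?_ ?_
    · simpa only [pt_im] using hinj
    · intro n; rw [pt_im]; exact hbd n
    · intro n
      rw [pt_im]
      simp only [Pi.zero_apply, zero_mul, add_zero]
      exact h1 (xs n)
    · intro n
      exact Or.inl (hxs n).2
  -- case 2
  have case2 : ∀ x, f' x ≠ 0 → S2 M γ c (pt f x, (starRingEnd ℂ) (pt f x)) = 0 := by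
    intro x1 hx1
    by_contra hA
    obtain ⟨xs, α, β, hxs, hinj, hbd⟩ := exists_seq hf
      (J := {x | f' x ≠ 0} ∩ {x | S2 M γ c (pt f x, (starRingEnd ℂ) (pt f x)) ≠ 0})
      ((isOpen_ne_fun hf' continuous_const).inter
        (isOpen_ne_fun (hcomp (S2_mem _ _ _)) continuous_const)) ⟨hx1, hA⟩ (fun x hx => hx.1)
    refine alg_contra (z := fun n => pt f (xs n)) (α := α) (β := β) ?_ ?_ hQ hQ0
      (fun n => hQz _) (S0_mem M g γ p' c c1 c2) (S1_mem M γ c c1) (S2_mem M γ c) ?_ ?_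
    · simpa only [pt_im] using hinj
    · intro n; rw [pt_im]; exact hbd n
    · intro n
      rw [pt_im]
      exact h2 (xs n)
    · intro n
      exact Or.inr (hxs n).2
  -- case 3
  have hRA : ∀ x, f' x ≠ 0 → g - γ * (ep M (dz c) (pt f x)).re = 0 := by
    intro x hx
    have h3 := case1 x hx
    unfold RA at h3
    simp only [Pi.add_apply, Pi.sub_apply, Pi.smul_apply, smul_eq_mul, L1_val, L2_val,
      add_conj] at h3
    have h4 : ((g - γ * (ep M (dz c) (pt f x)).re : ℝ) : ℂ) = 0 := by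
      rw [← h3]; push_cast; ring
    exact_mod_cast h4
  have hγ : γ ≠ 0 := by
    intro h0
    have := hRA x0 hx0
    rw [h0, zero_mul, sub_zero] at this
    exact hg.ne' this
  have hS2 : ∀ x, f' x ≠ 0 → (ep M (dz (dz c)) (pt f x)).re = 0 := by
    intro x hx
    have h3 := case2 x hx
    unfold S2 at h3
    simp only [Pi.add_apply, Pi.smul_apply, smul_eq_mul, L1_val, L2_val, add_conj] at h3
    have h4 : ((γ ^ 2 * (ep M (dz (dz c)) (pt f x)).re : ℝ) : ℂ) = 0 := by
      rw [← h3]; push_cast; ring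
    have h5 : γ ^ 2 * (ep M (dz (dz c)) (pt f x)).re = 0 := by exact_mod_cast h4
    exact (mul_eq_zero.1 h5).resolve_left (pow_ne_zero 2 hγ)
  have hO : IsOpen {x | f' x ≠ 0} := isOpen_ne_fun hf' continuous_const
  have hv1 : ∀ x, f' x ≠ 0 → ep M (dz (dz c)) (pt f x) = 0 := by
    intro x hx
    have h3 : HasDerivAt (fun s : ℝ => (ep M (dz c) (pt f s)).re)
        (ep M (dz (dz c)) (pt f x) * (1 + f' x * I)).re x := by
      have h4 := hasDerivAt_ep (c := fun _ => dz c) (c' := fun _ => 0) M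
        (fun k => hasDerivAt_const x (dz c k)) (hasDerivAt_pt (hf x))
      have h5 : ep M (fun _ => 0) (pt f x) = 0 := by simp [ep]
      rw [h5, zero_add] at h4
      exact hasDerivAt_re h4
    have h4 : (fun s : ℝ => (ep M (dz c) (pt f s)).re) =ᶠ[𝓝 x] fun _ => g / γ := by
      filter_upwards [hO.mem_nhds hx] with s hs
      have := hRA s hs
      field_simp
      linarith
    have h5 := (h3.congr_of_eventuallyEq h4.symm).unique (hasDerivAt_const x (g / γ))
    have h6 := hS2 x hx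
    simp only [mul_re, add_re, one_re, ofReal_re, I_re, mul_zero, ofReal_im, I_im, mul_one,
      sub_self, add_zero, add_im, one_im, mul_im, zero_add] at h5
    rw [h6] at h5
    have h7 : (ep M (dz (dz c)) (pt f x)).im * f' x = 0 := by linarith
    exact Complex.ext h6 ((mul_eq_zero.1 h7).resolve_right hx)
  -- identity theorem
  have hall : ∀ q, ep M (dz (dz c)) q = 0 := by
    have hfa : AnalyticOnNhd ℂ (ep M (dz (dz c))) univ := fun z _ =>
      (differentiable_ep M _).analyticAt z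
    have hfreq : ∃ᶠ q in 𝓝[≠] (pt f x0), ep M (dz (dz c)) q = 0 := by
      have ht : Tendsto (pt f) (𝓝[≠] x0) (𝓝[≠] (pt f x0)) := by
        rw [tendsto_nhdsWithin_iff]
        refine ⟨(hptc.tendsto x0).mono_left nhdsWithin_le_nhds, ?_⟩
        filter_upwards [self_mem_nhdsWithin] with s hs hs'
        have h3 := congrArg Complex.re hs'
        rw [pt_re, pt_re] at h3
        exact hs h3
      refine ht.frequently (Eventually.frequently ?_)
      have h3 : ∀ᶠ s in 𝓝 x0, f' s ≠ 0 := hO.mem_nhds hx0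
      filter_upwards [h3.filter_mono nhdsWithin_le_nhds] with s hs using hv1 s hs
    have h3 := hfa.eqOn_zero_of_preconnected_of_frequently_eq_zero isPreconnected_univ
      (mem_univ _) hfreq
    exact fun q => h3 (mem_univ q)
  have hKC : (K : ℂ) ≠ 0 := by
    have : K ≠ 0 := by omega
    exact_mod_cast this
  have h3 := ep_const hK hKM (dz_van (dz_van hc)) hall
  unfold dz at h3
  push_cast at h3
  exact (mul_ne_zero (neg_ne_zero.2 (mul_ne_zero I_ne_zero hKC))
    (mul_ne_zero (neg_ne_zero.2 (mul_ne_zero I_ne_zero hKC)) hcK)) h3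

end WW62
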