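import Pool.Agent.WW62.Core
import Pool.Agent.WW47.Coef

/-!
# The theorem for explicit potentials with finitely many harmonics
-/

open Complex Filter Topology Set

namespace WW62

lemma reindex (M : ℕ) (F : ℤ → ℂ) :
    ∑ k ∈ Finset.Icc (-(M : ℤ)) M, F (-k) = ∑ k ∈ Finset.Icc (-(M : ℤ)) M, F k := by
  refine Finset.sum_nbij' (fun k => -k) (fun k => -k) ?_ ?_ ?_ ?_ ?_
  · intro k hk; simp only [Finset.mem_Icc] at hk ⊢; omega
  · intro k hk; simp only [Finset.mem_Icc] at hk ⊢; omega
  · intro k _; simp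
  · intro k _; simp
  · intro k _; simp

/-- The imaginary part of an exponential sum on a horizontal line. -/
lemma im_line (M : ℕ) (b : ℤ → ℂ) (x h : ℝ) :
    (((ep M b (x + h * I)).im : ℝ) : ℂ) = WW47.tp M (fun k =>
      (b (-k) * exp (-(k * h)) - (starRingEnd ℂ) (b k) * exp (k * h)) / (2 * I)) x := by
  have h1 : ep M b (x + h * I) = WW47.tp M (fun k => b (-k) * exp (-(k * h))) x := by
    unfold WW47.tp ep
    rw [← reindex M (fun k => b k * exp (-(I * k * (x + h * I))))]
    refine Finset.sum_congr rfl fun k _ => ?_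
    have e : exp (-(I * ((-k : ℤ) : ℂ) * (x + h * I))) = exp (-(k * h)) * exp (I * k * x) := by
      rw [← exp_add]
      congr 1
      push_cast
      ring_nf
      rw [I_sq]
      ring
    simp only [e]
    ring
  have h2 : (starRingEnd ℂ) (ep M b (x + h * I)) =
      WW47.tp M (fun k => (starRingEnd ℂ) (b k) * exp (k * h)) x := by
    rw [← tp_bar]
    unfold WW47.tp bar
    refine Finset.sum_congr rfl fun k _ => ?_
    have e : exp (I * k * (starRingEnd ℂ) ((x : ℂ) + h * I)) = exp (k * h) * exp (I * k * x) := by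
      rw [← exp_add]
      congr 1
      simp only [map_add, map_mul, conj_ofReal, conj_I]
      ring_nf
      rw [I_sq]
      ring
    simp only [e]
    ring
  have h3 : (((ep M b (x + h * I)).im : ℝ) : ℂ) =
      (ep M b (x + h * I) - (starRingEnd ℂ) (ep M b (x + h * I))) / (2 * I) := by
    rw [sub_conj]
    have : (2 * I : ℂ) ≠ 0 := by simp
    field_simp
    push_cast
    ring
  rw [h3, h2, h1]
  unfold WW47.tp
  rw [← Finset.sum_sub_distrib, Finset.sum_div]
  refine Finset.sum_congr rfl fun k _ => ?_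
  ring

/-- **Theorem for explicit potentials.** -/
theorem explicit {M : ℕ} {g γ θ a b : ℝ} (hg : 0 < g) (hθ : 0 ≤ θ)
    {c c1 c2 : ℝ → ℤ → ℂ} {η ηx ηt : ℝ → ℝ → ℝ} {π : ℝ → ℝ}
    (hc : ∀ t ∈ Ioo a b, ∀ k, HasDerivAt (fun s => c s k) (c1 t k) t)
    (hc1 : ∀ t ∈ Ioo a b, ∀ k, HasDerivAt (fun s => c1 s k) (c2 t k) t)
    (hbig : ∀ t ∈ Ioo a b, ∀ k : ℤ, (M : ℤ) < k → c t k = 0)
    (hsym : ∀ t ∈ Ioo a b, ∀ k : ℕ, 1 ≤ k → c t (-(k : ℤ)) = (θ : ℂ) ^ k * (starRingEnd ℂ) (c t k))
    (hdep : ∀ t ∈ Ioo a b, ∀ x, θ * Real.exp (-(2 * η t x)) < 1)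
    (hηx : ∀ t ∈ Ioo a b, ∀ x, HasDerivAt (η t) (ηx t x) x)
    (hηxc : ∀ t ∈ Ioo a b, Continuous (ηx t))
    (hηt : ∀ t ∈ Ioo a b, ∀ x, HasDerivAt (fun s => η s x) (ηt t x) t)
    (hkin : ∀ t ∈ Ioo a b, ∀ x, ηt t x = -(ep M (dz (c t)) (pt (η t) x)).im
      - ηx t x * ((ep M (dz (c t)) (pt (η t) x)).re - γ * η t x))
    (hBer : ∀ t ∈ Ioo a b, ∀ x, Ber M g γ (c t) (c1 t) (pt (η t) x) (η t x) = π t) :
    ∃ h0 : ℝ, ∀ t ∈ Ioo a b, (∀ x, η t x = h0) ∧ ∀ k : ℤ, k ≠ 0 → c t k = 0 := by
  classical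
  -- derivatives of vanishing coefficients vanish
  have hvan : ∀ k : ℤ, (∀ t ∈ Ioo a b, c t k = 0) →
      (∀ t ∈ Ioo a b, c1 t k = 0) ∧ ∀ t ∈ Ioo a b, c2 t k = 0 := by
    intro k hk
    have h1 : ∀ t ∈ Ioo a b, c1 t k = 0 := by
      intro t ht
      have h2 : (fun s => c s k) =ᶠ[𝓝 t] fun _ => 0 := by
        filter_upwards [isOpen_Ioo.mem_nhds ht] with s hs using hk s hs
      exact ((hc t ht k).congr_of_eventuallyEq h2.symm).unique (hasDerivAt_const t 0)
    refine ⟨h1, fun t ht => ?_⟩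
    have h2 : (fun s => c1 s k) =ᶠ[𝓝 t] fun _ => 0 := by
      filter_upwards [isOpen_Ioo.mem_nhds ht] with s hs using h1 s hs
    exact ((hc1 t ht k).congr_of_eventuallyEq h2.symm).unique (hasDerivAt_const t 0)
  -- positive modes vanish
  have hpos : ∀ k : ℕ, 1 ≤ k → ∀ t ∈ Ioo a b, c t k = 0 := by
    by_contra hcon
    push Not at hcon
    obtain ⟨k0, hk0, t1, ht1, hct1⟩ := hcon
    -- the largest mode
    set S := (Finset.Icc 1 M).filter fun k : ℕ => ∃ t ∈ Ioo a b, c t (k : ℤ) ≠ 0 with hS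
    have hk0M : k0 ≤ M := by
      by_contra hlt
      exact hct1 (hbig t1 ht1 k0 (by omega))
    have hne : S.Nonempty := ⟨k0, Finset.mem_filter.2 ⟨Finset.mem_Icc.2 ⟨hk0, hk0M⟩,
      t1, ht1, hct1⟩⟩
    set K := S.max' hne with hKdef
    have hKS := S.max'_mem hne
    rw [← hKdef] at hKS
    obtain ⟨hK1, t2, ht2, hct2⟩ := Finset.mem_filter.1 hKS
    obtain ⟨hK1, hKM⟩ := Finset.mem_Icc.1 hK1
    have hKmax : ∀ k : ℤ, (K : ℤ) < k → ∀ t ∈ Ioo a b, c t k = 0 := by
      intro k hk t ht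
      by_contra hne'
      have hkM : k ≤ (M : ℤ) := by
        by_contra hlt
        exact hne' (hbig t ht k (by omega))
      obtain ⟨n, rfl⟩ : ∃ n : ℕ, k = n := ⟨k.toNat, by omega⟩
      have : n ≤ K := S.le_max' n (Finset.mem_filter.2
        ⟨Finset.mem_Icc.2 ⟨by omega, by omega⟩, t, ht, hne'⟩)
      omega
    -- flatness on the open set where the top mode is active
    have hflat : ∀ t ∈ Ioo a b, c t K ≠ 0 → ∀ x, η t x = η t 0 := by
      intro t ht hctK
      have hR1 : ∀ x, RC M γ (π t) (c t) (c1 t) (pt (η t) x, (starRingEnd ℂ) (pt (η t) x)) +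
          RA M g γ (c t) (pt (η t) x, (starRingEnd ℂ) (pt (η t) x)) * η t x = 0 :=
        fun x => relation1_c M (hBer t ht x)
      -- derivative in `x`
      have hdx : ∀ x, ((ep M (dz (c1 t)) (pt (η t) x) * (1 + ηx t x * I)).re
          + (ep M (dz (c t)) (pt (η t) x)).re *
            (ep M (dz (dz (c t))) (pt (η t) x) * (1 + ηx t x * I)).re
          + (ep M (dz (c t)) (pt (η t) x)).im *
            (ep M (dz (dz (c t))) (pt (η t) x) * (1 + ηx t x * I)).im
          - γ * (ηx t x * (ep M (dz (c t)) (pt (η t) x)).re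
            + η t x * (ep M (dz (dz (c t))) (pt (η t) x) * (1 + ηx t x * I)).re)
          + γ * (ep M (dz (c t)) (pt (η t) x) * (1 + ηx t x * I)).im + g * ηx t x) = 0 := by
        intro x
        have h1 := hasDerivAt_Ber M g γ (c := fun _ => c t) (c1 := fun _ => c1 t)
          (c' := fun _ => 0) (c1' := fun _ => 0)
          (fun k => hasDerivAt_const x (c t k)) (fun k => hasDerivAt_const x (c1 t k))
          (hasDerivAt_pt (hηx t ht x)) (hηx t ht x)
        have h2 : (fun s => Ber M g γ (c t) (c1 t) (pt (η t) s) (η t s)) = fun _ => π t :=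
          funext fun s => hBer t ht s
        rw [h2] at h1
        have h3 := h1.unique (hasDerivAt_const x (π t))
        have h4 : ep M (fun _ => 0) (pt (η t) x) = 0 := by simp [ep]
        have h5 : ep M (dz fun _ => 0) (pt (η t) x) = 0 := by simp [ep, dz]
        rw [h4, h5] at h3
        simp only [zero_add] at h3
        exact h3
      -- derivative in `t`
      have hdt : ∀ x, HasDerivAt (fun s => Ber M g γ (c s) (c1 s) (pt (η s) x) (η s x))
          ((ep M (c2 t) (pt (η t) x) + ep M (dz (c1 t)) (pt (η t) x) * (ηt t x * I)).re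
          + (ep M (dz (c t)) (pt (η t) x)).re *
            (ep M (dz (c1 t)) (pt (η t) x) + ep M (dz (dz (c t))) (pt (η t) x) * (ηt t x * I)).re
          + (ep M (dz (c t)) (pt (η t) x)).im *
            (ep M (dz (c1 t)) (pt (η t) x) + ep M (dz (dz (c t))) (pt (η t) x) * (ηt t x * I)).im
          - γ * (ηt t x * (ep M (dz (c t)) (pt (η t) x)).re
            + η t x * (ep M (dz (c1 t)) (pt (η t) x) +
              ep M (dz (dz (c t))) (pt (η t) x) * (ηt t x * I)).re)
          + γ * (ep M (c1 t) (pt (η t) x) + ep M (dz (c t)) (pt (η t) x) * (ηt t x * I)).im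
          + g * ηt t x) t := by
        intro x
        have hz : HasDerivAt (fun s => pt (η s) x) (ηt t x * I) t := by
          unfold pt
          exact ((hηt t ht x).ofReal_comp.mul_const I).const_add _
        exact hasDerivAt_Ber M g γ (fun k => hc t ht k) (fun k => hc1 t ht k) hz (hηt t ht x)
      have hR2 : ∃ p' : ℝ, ∀ x,
          S0 M g γ p' (c t) (c1 t) (c2 t) (pt (η t) x, (starRingEnd ℂ) (pt (η t) x)) +
          S1 M γ (c t) (c1 t) (pt (η t) x, (starRingEnd ℂ) (pt (η t) x)) * η t x +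
          S2 M γ (c t) (pt (η t) x, (starRingEnd ℂ) (pt (η t) x)) * (η t x) ^ 2 = 0 := by
        refine ⟨deriv π t, fun x => ?_⟩
        have h1 : (fun s => Ber M g γ (c s) (c1 s) (pt (η s) x) (η s x)) =ᶠ[𝓝 t] π := by
          filter_upwards [isOpen_Ioo.mem_nhds ht] with s hs using hBer s hs x
        have h2 := ((hdt x).congr_of_eventuallyEq h1.symm).deriv
        exact relation2_c M (relation2 (hkin t ht x) (hdx x) h2.symm)
      obtain ⟨p', hR2⟩ := hR2
      exact flat_at hK1 hKM hg (fun k hk => hKmax k hk t ht)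
        (fun k hk => (hvan k (hKmax k hk)).1 t ht) (fun k hk => (hvan k (hKmax k hk)).2 t ht)
        hctK (hηx t ht) (hηxc t ht) hR1 hR2
    -- contradiction at `t2`
    have hO1 : ∀ᶠ s in 𝓝 t2, s ∈ Ioo a b := isOpen_Ioo.mem_nhds ht2
    have hO : ∀ᶠ s in 𝓝 t2, s ∈ Ioo a b ∧ c s K ≠ 0 :=
      hO1.and ((hc t2 ht2 K).continuousAt.eventually_ne hct2)
    have hηx0 : ∀ x, ηx t2 x = 0 := by
      intro x
      have h1 : η t2 = fun _ => η t2 0 := funext (hflat t2 ht2 hct2)
      have h2 := hηx t2 ht2 x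
      rw [h1] at h2
      exact h2.unique (hasDerivAt_const x _)
    have hηt0 : ∀ x, ηt t2 x = ηt t2 0 := by
      intro x
      have h1 : (fun s => η s x) =ᶠ[𝓝 t2] fun s => η s 0 := by
        filter_upwards [hO] with s hs using hflat s hs.1 hs.2 x
      exact ((hηt t2 ht2 x).congr_of_eventuallyEq h1.symm).unique (hηt t2 ht2 0)
    set h := η t2 0 with hh
    have hIm : ∀ x : ℝ, (ep M (dz (c t2)) (x + h * I)).im = -ηt t2 0 := by
      intro x
      have h1 := hkin t2 ht2 x
      rw [hηx0, hηt0, zero_mul, sub_zero] at h1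
      have h2 : pt (η t2) x = x + h * I := by
        unfold pt; rw [hflat t2 ht2 hct2 x]
      rw [h2] at h1
      linarith
    have e1 : ∀ x : ℝ, (((ep M (dz (c t2)) (x + h * I)).im : ℝ) : ℂ) =
        WW47.tp M (fun k => if k = 0 then ((-ηt t2 0 : ℝ) : ℂ) else 0) x := by
      intro x
      rw [hIm x]
      unfold WW47.tp
      rw [Finset.sum_eq_single (0 : ℤ)]
      · simp
      · intro k _ hk
        simp only [if_neg hk, zero_mul]
      · intro h0
        exfalso
        apply h0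
        rw [Finset.mem_Icc]
        constructor <;> simp
    have hmem : (-(K : ℤ)) ∈ Finset.Icc (-(M : ℤ)) M := by
      rw [Finset.mem_Icc]; omega
    have e2 := WW47.coef_tp (f := fun x : ℝ => (ep M (dz (c t2)) (x + h * I)).im) e1 hmem
    have e3 := WW47.coef_tp (f := fun x : ℝ => (ep M (dz (c t2)) (x + h * I)).im)
      (fun x => im_line M (dz (c t2)) x h) hmem
    rw [e2, if_neg (by omega)] at e3
    have h2I : (2 * I : ℂ) ≠ 0 := by simp
    have e4 := (div_eq_zero_iff.1 e3.symm).resolve_right h2I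
    unfold dz at e4
    have e5 := hsym t2 ht2 K hK1
    rw [neg_neg, e5] at e4
    simp only [map_mul, map_neg, conj_I, map_intCast, map_pow, conj_ofReal,
      conj_conj] at e4
    push_cast at e4
    have hKC : (K : ℂ) ≠ 0 := by
      have : K ≠ 0 := by omega
      exact_mod_cast this
    have e6 : c t2 K * (exp (K * h) - (θ : ℂ) ^ K * exp (-(K * h))) = 0 := by
      have e7 : I * (K : ℂ) * (c t2 K * (exp (K * h) - (θ : ℂ) ^ K * exp (-(K * h)))) = 0 := by
        have h8 : -(-(K : ℂ) * (h : ℂ)) = K * h := by ring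
        have h9 : (-(K : ℂ) * (h : ℂ)) = -(K * h) := by ring
        rw [h8, h9] at e4
        linear_combination -e4
      exact (mul_eq_zero.1 e7).resolve_left (mul_ne_zero I_ne_zero hKC)
    have e8 := (mul_eq_zero.1 e6).resolve_left hct2
    have e9 : Real.exp (K * h) - θ ^ K * Real.exp (-(K * h)) = 0 := by
      have : ((Real.exp (K * h) - θ ^ K * Real.exp (-(K * h)) : ℝ) : ℂ) = 0 := by
        push_cast
        exact e8
      exact_mod_cast this
    have e10 : (θ * Real.exp (-(2 * h))) ^ K < 1 :=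
      pow_lt_one₀ (mul_nonneg hθ (Real.exp_pos _).le) (hdep t2 ht2 0) (by omega)
    rw [mul_pow, ← Real.exp_nat_mul] at e10
    have e11 : Real.exp (K * h) * Real.exp (-(K * h)) = 1 := by
      rw [← Real.exp_add]; simp
    have e12 : Real.exp (K * -(2 * h)) = Real.exp (-(K * h)) * Real.exp (-(K * h)) := by
      rw [← Real.exp_add]; congr 1; ring
    rw [e12] at e10
    have e13 : θ ^ K * (Real.exp (-(K * h)) * Real.exp (-(K * h))) = 1 := by
      have : θ ^ K * Real.exp (-(K * h)) = Real.exp (K * h) := by linarith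
      rw [← mul_assoc, this, e11]
    linarith
  -- all modes vanish
  have hall : ∀ t ∈ Ioo a b, ∀ k : ℤ, k ≠ 0 → c t k = 0 := by
    intro t ht k hk
    obtain ⟨n, rfl | rfl⟩ := k.eq_nat_or_neg
    · exact hpos n (by omega) t ht
    · have hn : 1 ≤ n := by omega
      rw [hsym t ht n hn, hpos n hn t ht, map_zero, mul_zero]
  have hv0 : ∀ t ∈ Ioo a b, ∀ z, ep M (dz (c t)) z = 0 := by
    intro t ht z
    unfold ep
    refine Finset.sum_eq_zero fun k _ => ?_
    by_cases hk : k = 0
    · simp [dz, hk]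
    · simp [dz, hall t ht k hk]
  have hcst : ∀ (d : ℤ → ℂ), (∀ k : ℤ, k ≠ 0 → d k = 0) → ∀ z, ep M d z = d 0 := by
    intro d hd z
    unfold ep
    rw [Finset.sum_eq_single (0 : ℤ)]
    · simp
    · intro k _ hk
      rw [hd k hk, zero_mul]
    · intro h0
      exfalso
      apply h0
      rw [Finset.mem_Icc]
      constructor <;> simp
  have hflat : ∀ t ∈ Ioo a b, ∀ x, η t x = η t 0 := by
    intro t ht x
    have h1 := hBer t ht x
    have h2 := hBer t ht 0
    unfold Ber at h1 h2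
    rw [hv0 t ht, hcst (c t) (hall t ht),
      hcst (c1 t) (fun k hk => (hvan k (fun s hs => hall s hs k hk)).1 t ht)] at h1 h2
    simp only [zero_re, zero_im, mul_zero, sub_zero] at h1 h2
    have h3 : g * (η t x - η t 0) = 0 := by linarith
    have h4 := (mul_eq_zero.1 h3).resolve_left hg.ne'
    linarith
  rcases (Ioo a b).eq_empty_or_nonempty with he | ⟨t0, ht0⟩
  · refine ⟨0, fun t ht => ?_⟩
    rw [he] at ht
    exact absurd ht (notMem_empty t)
  refine ⟨η t0 0, fun t ht => ⟨fun x => ?_, hall t ht⟩⟩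
  rw [hflat t ht x]
  have hd : DifferentiableOn ℝ (fun s => η s 0) (Ioo a b) := fun s hs =>
    (hηt s hs 0).differentiableAt.differentiableWithinAt
  refine isOpen_Ioo.is_const_of_deriv_eq_zero isPreconnected_Ioo hd (fun s hs => ?_) ht ht0
  have h1 : η s = fun _ => η s 0 := funext (hflat s hs)
  have h2 := hηx s hs 0
  rw [h1] at h2
  have h3 := h2.unique (hasDerivAt_const (0 : ℝ) _)
  have h4 := hkin s hs 0
  rw [hv0 s hs, h3] at h4
  simp only [zero_im, neg_zero, zero_mul, sub_zero] at h4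
  rw [(hηt s hs 0).deriv, h4]
  rfl

end WW62
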