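import Pool.Agent.WW62.General

/-!
# Gravity waves whose velocity potential has finitely many space harmonics are trivial
-/

open Complex Filter Topology Set

namespace WW62

open WW47 (px py surf etax DN)

section

variable {d : Option ℝ} {g γ a b : ℝ} {η ψ : ℝ → ℝ → ℝ} {Φ : ℝ → ℂ → ℝ} {q : ℝ → ℝ → ℝ}
  {p : ℝ → ℝ}

lemma eta_space (hw : GravityWave d g γ a b η ψ Φ q p) {t : ℝ} (ht : t ∈ Ioo a b) :
    ContDiff ℝ 1 (η t) := by
  rw [← contDiffOn_univ]
  exact hw.regη.comp (g := fun P : ℝ × ℝ => η P.1 P.2) (f := fun x : ℝ => (t, x))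
    (contDiffOn_const.prodMk contDiffOn_id) (fun _ _ => ⟨ht, mem_univ _⟩)

lemma eta_cont' (hw : GravityWave d g γ a b η ψ Φ q p) {t : ℝ} (ht : t ∈ Ioo a b) :
    Continuous (η t) := (eta_space hw ht).continuous

lemma eta_time' (hw : GravityWave d g γ a b η ψ Φ q p) (x : ℝ) :
    ContDiffOn ℝ 1 (fun s => η s x) (Ioo a b) :=
  hw.regη.comp (g := fun P : ℝ × ℝ => η P.1 P.2) (f := fun s : ℝ => (s, x))
    (contDiffOn_id.prodMk contDiffOn_const) (fun _ hs => ⟨hs, mem_univ _⟩)

lemma Phi_space (hw : GravityWave d g γ a b η ψ Φ q p) {t : ℝ} (ht : t ∈ Ioo a b) :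
    ContDiff ℝ 2 (Φ t) := by
  rw [← contDiffOn_univ]
  exact hw.regΦ.comp (g := fun P : ℝ × ℂ => Φ P.1 P.2) (f := fun z : ℂ => (t, z))
    (contDiffOn_const.prodMk contDiffOn_id) (fun _ _ => ⟨ht, mem_univ _⟩)

lemma Phi_time (hw : GravityWave d g γ a b η ψ Φ q p) (z : ℂ) :
    ContDiffOn ℝ 2 (fun s => Φ s z) (Ioo a b) :=
  hw.regΦ.comp (g := fun P : ℝ × ℂ => Φ P.1 P.2) (f := fun s : ℝ => (s, z))
    (contDiffOn_id.prodMk contDiffOn_const) (fun s hs => ⟨hs, mem_univ _⟩)

lemma px_space (hw : GravityWave d g γ a b η ψ Φ q p) {t : ℝ} (ht : t ∈ Ioo a b) :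
    Continuous (px Φ t) ∧ Continuous (py Φ t) := by
  have h := (Phi_space hw ht).continuous_fderiv (by norm_num)
  exact ⟨h.clm_apply continuous_const, h.clm_apply continuous_const⟩

lemma px_time (hw : GravityWave d g γ a b η ψ Φ q p) (z : ℂ) :
    ContinuousOn (fun s => px Φ s z) (Ioo a b) ∧ ContinuousOn (fun s => py Φ s z) (Ioo a b) := by
  have h1 : ContinuousOn (fderiv ℝ (fun P : ℝ × ℂ => Φ P.1 P.2)) (Ioo a b ×ˢ univ) :=
    hw.regΦ.continuousOn_fderiv_of_isOpen (WW47.isOpen_dom a b) (by norm_num)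
  have h2 : ∀ v : ℂ, ContinuousOn (fun s => fderiv ℝ (Φ s) z v) (Ioo a b) := by
    intro v
    have h3 : ContinuousOn (fun s : ℝ => fderiv ℝ (fun P : ℝ × ℂ => Φ P.1 P.2) (s, z) (0, v))
        (Ioo a b) := by
      have h4 : ContinuousOn (fun s : ℝ => fderiv ℝ (fun P : ℝ × ℂ => Φ P.1 P.2) (s, z))
          (Ioo a b) := h1.comp (f := fun s : ℝ => (s, z)) (by fun_prop)
            (fun s hs => ⟨hs, mem_univ _⟩)
      exact h4.clm_apply continuousOn_const
    refine h3.congr fun s hs => ?_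
    rw [(WW47.hasFDerivAt_slice hw.regΦ hs z).fderiv]
    simp
  exact ⟨h2 1, h2 I⟩

lemma isOpen_inFluid {η0 : ℝ → ℝ} (hη : Continuous η0) : IsOpen {z : ℂ | InFluid d η0 z} := by
  cases d with
  | none =>
    have : {z : ℂ | InFluid none η0 z} = {z : ℂ | z.im < η0 z.re} := by
      ext z; simp [InFluid]
    rw [this]
    exact isOpen_lt continuous_im (hη.comp continuous_re)
  | some h =>
    have : {z : ℂ | InFluid (some h) η0 z} = {z : ℂ | z.im < η0 z.re} ∩ {z : ℂ | -h < z.im} := by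
      ext z; simp [InFluid]
    rw [this]
    exact (isOpen_lt continuous_im (hη.comp continuous_re)).inter
      (isOpen_lt continuous_const continuous_im)

/-- the surface is in the closure of the fluid -/
lemma surf_mem_closure {η0 : ℝ → ℝ} (hab : ∀ h, d = some h → ∀ x, -h < η0 x) (x : ℝ) :
    pt η0 x ∈ closure {z : ℂ | InFluid d η0 z} := by
  have hlim : Tendsto (fun s : ℝ => pt η0 x - s * I) (𝓝[>] 0) (𝓝 (pt η0 x)) := by
    have : Continuous fun s : ℝ => pt η0 x - s * I := by fun_prop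
    have h := this.tendsto 0
    simp only [ofReal_zero, zero_mul, sub_zero] at h
    exact h.mono_left nhdsWithin_le_nhds
  refine mem_closure_of_tendsto hlim ?_
  have hre : ∀ s : ℝ, (pt η0 x - s * I).re = x := by intro s; simp [pt]
  have him : ∀ s : ℝ, (pt η0 x - s * I).im = η0 x - s := by intro s; simp [pt]
  cases d with
  | none =>
    filter_upwards [self_mem_nhdsWithin] with s hs
    have hs' : 0 < s := hs
    refine ⟨?_, fun h hh => by simp at hh⟩
    rw [hre, him]; linarith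
  | some h =>
    have h1 := hab h rfl x
    have h2 : ∀ᶠ s : ℝ in 𝓝[>] 0, s < η0 x + h :=
      (gt_mem_nhds (by linarith)).filter_mono nhdsWithin_le_nhds
    filter_upwards [self_mem_nhdsWithin, h2] with s hs hs2
    have hs' : 0 < s := hs
    refine ⟨?_, fun h' hh => ?_⟩
    · rw [hre, him]; linarith
    · rw [Option.some.injEq] at hh
      rw [him, ← hh]; linarith

/-- the bottom is in the closure of the fluid -/
lemma bottom_mem_closure {η0 : ℝ → ℝ} {h : ℝ} (hab : ∀ x, -h < η0 x) (x : ℝ) :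
    (x - h * I : ℂ) ∈ closure {z : ℂ | InFluid (some h) η0 z} := by
  have hlim : Tendsto (fun s : ℝ => (x - h * I + s * I : ℂ)) (𝓝[>] 0) (𝓝 (x - h * I : ℂ)) := by
    have : Continuous fun s : ℝ => (x - h * I + s * I : ℂ) := by fun_prop
    have h := this.tendsto 0
    simp only [ofReal_zero, zero_mul, add_zero] at h
    exact h.mono_left nhdsWithin_le_nhds
  refine mem_closure_of_tendsto hlim ?_
  have hre : ∀ s : ℝ, (x - h * I + s * I : ℂ).re = x := by intro s; simp
  have him : ∀ s : ℝ, (x - h * I + s * I : ℂ).im = -h + s := by intro s; simp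
  have h1 := hab x
  have h2 : ∀ᶠ s : ℝ in 𝓝[>] 0, s < η0 x + h :=
    (gt_mem_nhds (by linarith)).filter_mono nhdsWithin_le_nhds
  filter_upwards [self_mem_nhdsWithin, h2] with s hs hs2
  have hs' : 0 < s := hs
  refine ⟨?_, fun h' hh => ?_⟩
  · rw [hre, him]; linarith
  · rw [Option.some.injEq] at hh
    rw [him, ← hh]; linarith

lemma hasFDerivAt_re_ep (M : ℕ) (c : ℤ → ℂ) (z : ℂ) :
    HasFDerivAt (fun w : ℂ => (ep M c w).re)
      (reCLM.comp ((ContinuousLinearMap.smulRight (1 : ℂ →L[ℂ] ℂ)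
        (ep M (dz c) z)).restrictScalars ℝ)) z :=
  reCLM.hasFDerivAt.comp z ((hasDerivAt_ep_z M c z).hasFDerivAt.restrictScalars ℝ)

/-- values and gradient on the closed fluid domain -/
lemma closure_values (hw : GravityWave d g γ a b η ψ Φ q p) {t : ℝ} (ht : t ∈ Ioo a b) {M : ℕ}
    {c : ℤ → ℂ} (hrep : ∀ z, InFluid d (η t) z → Φ t z = (ep M c z).re) {z : ℂ}
    (hz : z ∈ closure {z : ℂ | InFluid d (η t) z}) :
    Φ t z = (ep M c z).re ∧ px Φ t z = (ep M (dz c) z).re ∧ py Φ t z = -(ep M (dz c) z).im := by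
  have hopen := isOpen_inFluid (d := d) (eta_cont' hw ht)
  have hin : ∀ w ∈ {z : ℂ | InFluid d (η t) z},
      px Φ t w = (ep M (dz c) w).re ∧ py Φ t w = -(ep M (dz c) w).im := by
    intro w hw'
    have h1 : Φ t =ᶠ[𝓝 w] fun w => (ep M c w).re := by
      filter_upwards [hopen.mem_nhds hw'] with v hv using hrep v hv
    have h2 := (hasFDerivAt_re_ep M c w).congr_of_eventuallyEq h1
    unfold px py
    rw [h2.fderiv]
    simp
  have hcep : ∀ b : ℤ → ℂ, Continuous (ep M b) := fun b => (differentiable_ep M b).continuous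
  refine ⟨?_, ?_, ?_⟩
  · have hcl : IsClosed {z : ℂ | Φ t z = (ep M c z).re} :=
      isClosed_eq (Phi_space hw ht).continuous (continuous_re.comp (hcep c))
    exact closure_minimal (fun w hw' => hrep w hw') hcl hz
  · have hcl : IsClosed {z : ℂ | px Φ t z = (ep M (dz c) z).re} :=
      isClosed_eq (px_space hw ht).1 (continuous_re.comp (hcep _))
    exact closure_minimal (fun w hw' => (hin w hw').1) hcl hz
  · have hcl : IsClosed {z : ℂ | py Φ t z = -(ep M (dz c) z).im} :=
      isClosed_eq (px_space hw ht).2 (continuous_im.comp (hcep _)).neg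
    exact closure_minimal (fun w hw' => (hin w hw').2) hcl hz

lemma near_time' (hw : GravityWave d g γ a b η ψ Φ q p) {t : ℝ} (ht : t ∈ Ioo a b) {y0 : ℝ}
    (hC : ∀ x, y0 < η t x) :
    ∃ τ > 0, ∀ s : ℝ, |s - t| ≤ τ → s ∈ Ioo a b ∧ ∀ x, y0 < η s x := by
  set n : Set (ℝ × ℝ) := (Ioo a b ×ˢ (univ : Set ℝ)) ∩ {P | y0 < η P.1 P.2} with hn
  have hno : IsOpen n := by
    have := hw.regη.continuousOn.isOpen_inter_preimage (WW47.isOpen_domR a b)
      (isOpen_Ioi (a := y0))
    exact this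
  have hsub : ({t} : Set ℝ) ×ˢ Icc 0 (2 * Real.pi) ⊆ n := by
    rintro ⟨s, x⟩ ⟨hs, _⟩
    have hs' : s = t := hs
    subst hs'
    exact ⟨⟨ht, mem_univ _⟩, hC x⟩
  obtain ⟨u, v, hu, hv, hsu, hxv, huv⟩ :=
    generalized_tube_lemma isCompact_singleton isCompact_Icc hno hsub
  have htu : t ∈ u := hsu rfl
  obtain ⟨r, hr, hru⟩ := Metric.isOpen_iff.mp hu t htu
  refine ⟨r / 2, by positivity, fun s hs => ?_⟩
  have hsu' : s ∈ u := hru (by rw [Metric.mem_ball, Real.dist_eq]; linarith)
  have h0v : (0 : ℝ) ∈ v := hxv ⟨le_rfl, by positivity⟩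
  have hsI : s ∈ Ioo a b := (huv (show ((s, 0) : ℝ × ℝ) ∈ u ×ˢ v from ⟨hsu', h0v⟩)).1.1
  refine ⟨hsI, fun x => ?_⟩
  have hper : Function.Periodic (η s) (2 * Real.pi) := hw.perη s hsI
  obtain ⟨y, hy, hxy⟩ := hper.exists_mem_Ico₀ (by positivity) x
  rw [hxy]
  exact (huv (show ((s, y) : ℝ × ℝ) ∈ u ×ˢ v from ⟨hsu', hxv ⟨hy.1, hy.2.le⟩⟩)).2

/-- a horizontal line inside the fluid, for all times near `t` -/
lemma exists_line (hw : GravityWave d g γ a b η ψ Φ q p) {t : ℝ} (ht : t ∈ Ioo a b) :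
    ∃ y0 : ℝ, (∀ h, d = some h → -h < y0) ∧
      ∃ τ > 0, ∀ s : ℝ, |s - t| ≤ τ → s ∈ Ioo a b ∧ ∀ x, y0 < η s x := by
  obtain ⟨x0, -, hmin⟩ := (isCompact_Icc (a := (0 : ℝ)) (b := 2 * Real.pi)).exists_isMinOn
    ⟨0, by constructor <;> positivity⟩ (eta_cont' hw ht).continuousOn
  have hper : Function.Periodic (η t) (2 * Real.pi) := hw.perη t ht
  have hmin' : ∀ x, η t x0 ≤ η t x := by
    intro x
    obtain ⟨y, hy, hxy⟩ := hper.exists_mem_Ico₀ (by positivity) x
    rw [hxy]
    exact hmin ⟨hy.1, hy.2.le⟩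
  cases d with
  | none =>
    refine ⟨η t x0 - 1, fun h hh => by simp at hh, near_time' hw ht fun x => ?_⟩
    have := hmin' x
    linarith
  | some h =>
    have h1 := hw.above h rfl t ht x0
    refine ⟨(η t x0 - h) / 2, fun h' hh => ?_, near_time' hw ht fun x => ?_⟩
    · rw [Option.some.injEq] at hh
      rw [← hh]; linarith
    · have := hmin' x
      linarith

/-- A representation by a finite sum is a representation with the canonical coefficients. -/
lemma canonical (hw : GravityWave d g γ a b η ψ Φ q p) {t : ℝ} (ht : t ∈ Ioo a b) {y0 : ℝ}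
    (hy1 : ∀ h, d = some h → -h < y0) (hy2 : ∀ x, y0 < η t x) {M : ℕ} {c : ℤ → ℂ}
    (hrep : ∀ z, InFluid d (η t) z → Φ t z = (ep M c z).re) :
    ∀ z, InFluid d (η t) z →
      Φ t z = (ep M (cc (theta d) y0 M (fun x => Φ t (x + y0 * I))) z).re := by
  have hline : ∀ x : ℝ, InFluid d (η t) (x + y0 * I) := by
    intro x
    refine ⟨?_, fun h hh => ?_⟩
    · have h1 : ((x : ℂ) + y0 * I).re = x := by simp
      have h2 : ((x : ℂ) + y0 * I).im = y0 := by simp
      rw [h1, h2]; exact hy2 x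
    · have h2 : ((x : ℂ) + y0 * I).im = y0 := by simp
      rw [h2]; exact hy1 h hh
  have hsym : ∀ k : ℕ, 1 ≤ k → k ≤ M →
      c (-(k : ℤ)) = ((theta d : ℝ) : ℂ) ^ k * (starRingEnd ℂ) (c k) := by
    intro k hk hkM
    cases d with
    | none =>
      have h1 := sym_of_decay (M := M) (c := c) (fun ε hε => by
        obtain ⟨Y, hY⟩ := hw.decay rfl t ht ε hε
        refine ⟨min Y y0, fun z hz => ?_⟩
        have hzf : InFluid none (η t) z :=
          ⟨(hz.trans_le (min_le_right _ _)).trans (hy2 _), fun h hh => by simp at hh⟩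
        obtain ⟨-, e1, e2⟩ := closure_values hw ht hrep (subset_closure hzf)
        have h2 := hY z (hz.trans_le (min_le_left _ _))
        rw [e1, e2, abs_neg] at h2
        exact h2) hk hkM
      rw [h1]
      simp only [theta, ofReal_zero]
      rw [zero_pow (by omega), zero_mul]
    | some h =>
      exact sym_of_bottom (fun x => by
        obtain ⟨-, -, e2⟩ := closure_values hw ht hrep
          (bottom_mem_closure (hw.above h rfl t ht) x)
        rw [hw.bottom h rfl t ht x] at e2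
        linarith) hk hkM
  intro z hz
  rw [hrep z hz, re_ep_cc (theta_nonneg d) (fun x => hrep _ (hline x)) hsym]

/-- The theorem on an interval with a fixed degree. -/
theorem local_thm (hg : 0 < g) (hw : GravityWave d g γ a b η ψ Φ q p) {a' b' : ℝ}
    (hsub : Ioo a' b' ⊆ Ioo a b) {M : ℕ} {y0 : ℝ}
    (hrep : ∀ t ∈ Ioo a' b', ∀ z, InFluid d (η t) z →
      Φ t z = (ep M (cc (theta d) y0 M (fun x => Φ t (x + y0 * I))) z).re) :
    ∃ h0 : ℝ, ∀ t ∈ Ioo a' b', (∀ x, η t x = h0) ∧
      ∀ z, InFluid d (η t) z → px Φ t z = 0 ∧ py Φ t z = 0 := by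
  set c : ℝ → ℤ → ℂ := fun t => cc (theta d) y0 M (fun x => Φ t (x + y0 * I)) with hcdef
  have hcC : ∀ k, ContDiffOn ℝ 2 (fun t => c t k) (Ioo a b) := fun k =>
    contDiffOn_cc (φ := fun t x => Φ t (x + y0 * I)) (fun x => Phi_time hw _) k
  have hcC' : ∀ k, ContDiffOn ℝ 1 (deriv (fun t => c t k)) (Ioo a b) := fun k =>
    (hcC k).deriv_of_isOpen isOpen_Ioo (by norm_num)
  have hc : ∀ t ∈ Ioo a' b', ∀ k, HasDerivAt (fun s => c s k) (deriv (fun s => c s k) t) t :=
    fun t ht k => (((hcC k).contDiffAt (isOpen_Ioo.mem_nhds (hsub ht))).differentiableAt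
      (by norm_num)).hasDerivAt
  have hc1 : ∀ t ∈ Ioo a' b', ∀ k, HasDerivAt (fun s => deriv (fun s => c s k) s)
      (deriv (fun s => deriv (fun s => c s k) s) t) t :=
    fun t ht k => (((hcC' k).contDiffAt (isOpen_Ioo.mem_nhds (hsub ht))).differentiableAt
      (by norm_num)).hasDerivAt
  have hηx : ∀ t ∈ Ioo a' b', ∀ x, HasDerivAt (η t) (etax η t x) x := fun t ht x =>
    (((eta_space hw (hsub ht)).differentiable (by norm_num)) x).hasDerivAt
  have hηt : ∀ t ∈ Ioo a' b', ∀ x, HasDerivAt (fun s => η s x) (deriv (fun s => η s x) t) t :=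
    fun t ht x => (((eta_time' hw x).contDiffAt
      (isOpen_Ioo.mem_nhds (hsub ht))).differentiableAt (by norm_num)).hasDerivAt
  have hsv : ∀ t ∈ Ioo a' b', ∀ x, Φ t (pt (η t) x) = (ep M (c t) (pt (η t) x)).re ∧
      px Φ t (pt (η t) x) = (ep M (dz (c t)) (pt (η t) x)).re ∧
      py Φ t (pt (η t) x) = -(ep M (dz (c t)) (pt (η t) x)).im := fun t ht x =>
    closure_values hw (hsub ht) (hrep t ht)
      (surf_mem_closure (fun h hh => hw.above h hh t (hsub ht)) x)
  have hDN : ∀ t ∈ Ioo a' b', ∀ x, DN Φ η t x = -(ep M (dz (c t)) (pt (η t) x)).im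
      - etax η t x * (ep M (dz (c t)) (pt (η t) x)).re := by
    intro t ht x
    obtain ⟨-, e1, e2⟩ := hsv t ht x
    have h1 : surf η t x = pt (η t) x := rfl
    unfold DN
    rw [h1, e1, e2]
  have hkin : ∀ t ∈ Ioo a' b', ∀ x, deriv (fun s => η s x) t =
      -(ep M (dz (c t)) (pt (η t) x)).im
        - etax η t x * ((ep M (dz (c t)) (pt (η t) x)).re - γ * η t x) := by
    intro t ht x
    rw [hw.kin t (hsub ht) x, hDN t ht x]
    ring
  -- Bernoulli
  have hBer : ∀ t ∈ Ioo a' b', ∀ x,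
      Ber M g γ (c t) (fun k => deriv (fun s => c s k) t) (pt (η t) x) (η t x) =
        p t + γ * (q t x + (ep M (c t) (pt (η t) x)).im) := by
    intro t ht x
    have hψx : deriv (ψ t) x = (ep M (dz (c t)) (pt (η t) x) * (1 + etax η t x * I)).re := by
      have h1 : ψ t = fun y => (ep M (c t) (pt (η t) y)).re := by
        funext y
        rw [hw.trace t (hsub ht) y]
        exact (hsv t ht y).1
      have h2 := hasDerivAt_ep (c := fun _ => c t) (c' := fun _ => 0) M
        (fun k => hasDerivAt_const x (c t k)) (hasDerivAt_pt (hηx t ht x))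
      have h3 : ep M (fun _ => 0) (pt (η t) x) = 0 := by simp [ep]
      rw [h3, zero_add] at h2
      rw [h1]
      exact (hasDerivAt_re h2).deriv
    have hψt : deriv (fun s => ψ s x) t =
        (ep M (fun k => deriv (fun s => c s k) t) (pt (η t) x)
          + ep M (dz (c t)) (pt (η t) x) * (deriv (fun s => η s x) t * I)).re := by
      have h1 : (fun s => ψ s x) =ᶠ[𝓝 t] fun s => (ep M (c s) (pt (η s) x)).re := by
        filter_upwards [isOpen_Ioo.mem_nhds ht] with s hs
        rw [hw.trace s (hsub hs) x]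
        exact (hsv s hs x).1
      have hz : HasDerivAt (fun s => pt (η s) x) (deriv (fun s => η s x) t * I) t := by
        unfold pt
        exact ((hηt t ht x).ofReal_comp.mul_const I).const_add _
      have h2 := hasDerivAt_ep M (fun k => hc t ht k) hz
      exact ((hasDerivAt_re h2).congr_of_eventuallyEq h1).deriv
    have hd := hw.dyn t (hsub ht) x
    have hk := hkin t ht x
    rw [hψt, hψx, hDN t ht x] at hd
    unfold Ber
    generalize hP : (ep M (dz (c t)) (pt (η t) x)).re = P at *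
    generalize hR : (ep M (dz (c t)) (pt (η t) x)).im = R at *
    simp only [mul_re, mul_im, add_re, add_im, one_re, one_im, ofReal_re, ofReal_im, I_re, I_im,
      mul_zero, mul_one, sub_zero, add_zero, zero_add, hP, hR] at hd
    generalize (ep M (fun k => deriv (fun s => c s k) t) (pt (η t) x)).re = F at *
    generalize (ep M (c t) (pt (η t) x)).im = J at *
    generalize etax η t x = e at *
    generalize deriv (fun s => η s x) t = w at *
    generalize η t x = y at *
    have h1 : (e * (P - R * e) + (-R - e * P)) ^ 2 / (2 * (1 + e ^ 2)) = R ^ 2 * (1 + e ^ 2) / 2 := by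
      have : (1 + e ^ 2) ≠ 0 := by positivity
      field_simp
      ring
    have h2 : P * 1 + 0 = P := by ring
    simp only [zero_sub] at hd
    rw [h1, hk] at hd
    linear_combination hd
  have hqc : ∀ t ∈ Ioo a' b', ∀ x, q t x + (ep M (c t) (pt (η t) x)).im =
      q t 0 + (ep M (c t) (pt (η t) 0)).im := by
    intro t ht x
    have h1 : ∀ y, HasDerivAt (fun y => q t y + (ep M (c t) (pt (η t) y)).im) 0 y := by
      intro y
      have h2 := hasDerivAt_ep (c := fun _ => c t) (c' := fun _ => 0) M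
        (fun k => hasDerivAt_const y (c t k)) (hasDerivAt_pt (hηx t ht y))
      have h3 : ep M (fun _ => 0) (pt (η t) y) = 0 := by simp [ep]
      rw [h3, zero_add] at h2
      have h4 := (hw.derq t (hsub ht) y).fun_add (hasDerivAt_im h2)
      refine h4.congr_deriv ?_
      rw [hDN t ht y]
      simp only [mul_im, add_re, add_im, one_re, one_im, ofReal_re, ofReal_im, I_re, I_im,
        mul_re, mul_zero, mul_one, sub_zero, add_zero, zero_add]
      ring
    exact is_const_of_deriv_eq_zero (fun y => (h1 y).differentiableAt)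
      (fun y => (h1 y).deriv) x 0
  have hdep : ∀ t ∈ Ioo a' b', ∀ x, theta d * Real.exp (-(2 * η t x)) < 1 := by
    intro t ht x
    cases d with
    | none => simp [theta]
    | some h =>
      have h1 := hw.above h rfl t (hsub ht) x
      simp only [theta]
      rw [← Real.exp_add, Real.exp_lt_one_iff]
      linarith
  have hηxc : ∀ t ∈ Ioo a' b', Continuous (etax η t) := fun t ht =>
    (eta_space hw (hsub ht)).continuous_deriv (by norm_num)
  obtain ⟨h0, hres⟩ := explicit (M := M) (g := g) (γ := γ) (θ := theta d) hg (theta_nonneg d)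
    (c := c) (c1 := fun t k => deriv (fun s => c s k) t)
    (c2 := fun t k => deriv (fun s => deriv (fun s => c s k) s) t)
    (η := η) (ηx := etax η) (ηt := fun t x => deriv (fun s => η s x) t)
    (π := fun t => p t + γ * (q t 0 + (ep M (c t) (pt (η t) 0)).im))
    hc hc1 (fun t _ k hk => cc_big hk) (fun t _ k hk => cc_sym hk) hdep hηx hηxc hηt hkin
    (fun t ht x => by rw [hBer t ht x, hqc t ht x])
  refine ⟨h0, fun t ht => ⟨(hres t ht).1, fun z hz => ?_⟩⟩
  obtain ⟨-, e1, e2⟩ := closure_values hw (hsub ht) (hrep t ht) (subset_closure hz)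
  have h1 : ep M (dz (c t)) z = 0 := by
    unfold ep
    refine Finset.sum_eq_zero fun k _ => ?_
    by_cases hk : k = 0
    · simp [dz, hk]
    · simp [dz, (hres t ht).2 k hk]
  have h2 : ep M (dz (cc (theta d) y0 M fun x => Φ t (x + y0 * I))) z = 0 := h1
  rw [e1, e2, h2]
  simp

/-- Baire: every time interval contains a smaller one on which the wave is at rest. -/
theorem dense_rest (hg : 0 < g) (hw : GravityWave d g γ a b η ψ Φ q p)
    (hfin : ∀ t ∈ Ioo a b, ∃ (M : ℕ) (c : ℤ → ℂ), ∀ z, InFluid d (η t) z →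
      Φ t z = (ep M c z).re) {u0 v0 : ℝ} (hu : a ≤ u0) (huv : u0 < v0) (hv : v0 ≤ b) :
    ∃ (a' b' h0 : ℝ), u0 ≤ a' ∧ a' < b' ∧ b' ≤ v0 ∧ ∀ t ∈ Ioo a' b', (∀ x, η t x = h0) ∧
      ∀ z, InFluid d (η t) z → px Φ t z = 0 ∧ py Φ t z = 0 := by
  obtain ⟨t0, ht0u, ht0v⟩ := exists_between huv
  have ht0 : t0 ∈ Ioo a b := ⟨hu.trans_lt ht0u, ht0v.trans_le hv⟩
  obtain ⟨y0, hy1, τ, hτ, hline⟩ := exists_line hw ht0
  set r : ℝ := min τ (min (t0 - u0) (v0 - t0)) / 2 with hr
  have hr0 : 0 < r := by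
    have : 0 < min τ (min (t0 - u0) (v0 - t0)) :=
      lt_min hτ (lt_min (by linarith) (by linarith))
    positivity
  have hrτ : r < τ ∧ r < t0 - u0 ∧ r < v0 - t0 := by
    have h1 := min_le_left τ (min (t0 - u0) (v0 - t0))
    have h2 := min_le_right τ (min (t0 - u0) (v0 - t0))
    have h3 := min_le_left (t0 - u0) (v0 - t0)
    have h4 := min_le_right (t0 - u0) (v0 - t0)
    refine ⟨?_, ?_, ?_⟩ <;> linarith
  set u : ℝ := t0 - r with hudef
  set v : ℝ := t0 + r with hvdef
  have huv' : u < v := by linarith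
  have hJ : ∀ t ∈ Icc u v, t ∈ Ioo a b ∧ ∀ x, y0 < η t x := by
    intro t ht
    refine hline t ?_
    rw [abs_le]
    constructor <;> linarith [ht.1, ht.2]
  have hJsub : Icc u v ⊆ Ioo a b := fun t ht => (hJ t ht).1
  set C : ℕ → ℝ → ℤ → ℂ := fun M t => cc (theta d) y0 M (fun x => Φ t (x + y0 * I)) with hC
  set A : ℕ → Set ℝ := fun M => {t | t ∈ Icc u v ∧ ∀ z, InFluid d (η t) z →
    Φ t z = (ep M (C M t) z).re} with hA
  have hclosed : ∀ M, IsClosed (A M) := by
    intro M
    have h1 : A M = ⋂ z : ℂ, {t | t ∈ Icc u v ∧ (InFluid d (η t) z →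
        Φ t z = (ep M (C M t) z).re)} := by
      ext t
      simp only [hA, mem_iInter]
      constructor
      · rintro ⟨h1, h2⟩ z
        exact ⟨h1, h2 z⟩
      · intro h2
        exact ⟨(h2 0).1, fun z => (h2 z).2⟩
    rw [h1]
    refine isClosed_iInter fun z => ?_
    have hc1 : ContinuousOn (fun t => Φ t z) (Icc u v) :=
      (Phi_time hw z).continuousOn.mono hJsub
    have hc2 : ContinuousOn (fun t => (ep M (C M t) z).re) (Icc u v) := by
      refine continuous_re.comp_continuousOn ?_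
      unfold ep
      refine continuousOn_finsetSum _ fun k _ => ContinuousOn.mul ?_ continuousOn_const
      exact ((contDiffOn_cc (φ := fun t x => Φ t (x + y0 * I)) (fun x => Phi_time hw _)
        k).continuousOn).mono hJsub
    have hc3 : ContinuousOn (fun t => η t z.re) (Icc u v) :=
      (eta_time' hw z.re).continuousOn.mono hJsub
    -- sequential closedness
    refine isClosed_of_closure_subset fun t ht => ?_
    have htI : t ∈ Icc u v := by
      refine closure_minimal ?_ isClosed_Icc ht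
      intro s hs
      exact hs.1
    refine ⟨htI, fun hz => ?_⟩
    by_contra hne
    have e1 : ContinuousWithinAt (fun t => Φ t z - (ep M (C M t) z).re) (Icc u v) t :=
      (hc1 t htI).sub (hc2 t htI)
    have e2 : ∀ᶠ s in 𝓝[Icc u v] t, Φ s z - (ep M (C M s) z).re ≠ 0 :=
      e1.eventually_ne (sub_ne_zero.2 hne)
    have e3 : ∀ᶠ s in 𝓝[Icc u v] t, z.im < η s z.re :=
      (hc3 t htI).eventually (lt_mem_nhds hz.1)
    have e4 : ∃ᶠ s in 𝓝[Icc u v] t, s ∈ {t | t ∈ Icc u v ∧ (InFluid d (η t) z →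
        Φ t z = (ep M (C M t) z).re)} := by
      rw [frequently_nhdsWithin_iff]
      rw [mem_closure_iff_frequently] at ht
      exact ht.mono fun s hs => ⟨hs, hs.1⟩
    obtain ⟨s, hs1, hs2, hs3⟩ := (e4.and_eventually (e2.and e3)).exists
    exact hs2 (sub_eq_zero.2 (hs1.2 ⟨hs3, hz.2⟩))
  set F : Option ℕ → Set ℝ := fun o => o.elim (Iic u ∪ Ici v) A with hF
  have hFc : ∀ o, IsClosed (F o) := by
    intro o
    cases o with
    | none => exact isClosed_Iic.union isClosed_Ici
    | some N => exact hclosed N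
  have hFU : ⋃ o, F o = univ := by
    rw [eq_univ_iff_forall]
    intro t
    rw [mem_iUnion]
    by_cases ht : t ∈ Ioo u v
    · have htI : t ∈ Icc u v := ⟨ht.1.le, ht.2.le⟩
      obtain ⟨M, c, hc⟩ := hfin t (hJsub htI)
      exact ⟨some M, htI, canonical hw (hJsub htI) hy1 (hJ t htI).2 hc⟩
    · refine ⟨none, ?_⟩
      by_cases h1 : t ≤ u
      · exact Or.inl h1
      · refine Or.inr ?_
        by_contra h2
        exact ht ⟨not_le.1 h1, not_le.1 h2⟩
  have hdense := dense_iUnion_interior_of_closed hFc hFU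
  obtain ⟨t1, ht1, ht1'⟩ := hdense.exists_mem_open isOpen_Ioo (nonempty_Ioo.2 huv')
  rw [mem_iUnion] at ht1
  obtain ⟨o, ho⟩ := ht1
  cases o with
  | none =>
    exfalso
    have : t1 ∈ Iic u ∪ Ici v := interior_subset ho
    rcases this with h1 | h1
    · exact absurd ht1'.1 (not_lt.2 h1)
    · exact absurd ht1'.2 (not_lt.2 h1)
  | some M =>
    have ho' : t1 ∈ interior (A M) ∩ Ioo u v := ⟨ho, ht1'⟩
    obtain ⟨ρ, hρ, hρs⟩ := Metric.isOpen_iff.1 (isOpen_interior.inter isOpen_Ioo) t1 ho'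
    rw [Real.ball_eq_Ioo] at hρs
    have hin : ∀ t ∈ Ioo (t1 - ρ / 2) (t1 + ρ / 2), t ∈ A M ∧ t ∈ Ioo u v := by
      intro t ht
      have h1 : t ∈ interior (A M) ∩ Ioo u v := hρs ⟨by linarith [ht.1], by linarith [ht.2]⟩
      exact ⟨interior_subset h1.1, h1.2⟩
    have hl : u ≤ t1 - ρ / 2 := by
      have h1 : t1 - ρ / 2 ∈ interior (A M) ∩ Ioo u v := hρs ⟨by linarith, by linarith⟩
      exact h1.2.1.le
    have hr' : t1 + ρ / 2 ≤ v := by
      have h1 : t1 + ρ / 2 ∈ interior (A M) ∩ Ioo u v := hρs ⟨by linarith, by linarith⟩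
      exact h1.2.2.le
    obtain ⟨h0, hres⟩ := local_thm hg hw (a' := t1 - ρ / 2) (b' := t1 + ρ / 2) (M := M) (y0 := y0)
      (fun t ht => hJsub ⟨(hin t ht).2.1.le, (hin t ht).2.2.le⟩)
      (fun t ht => (hin t ht).1.2)
    exact ⟨t1 - ρ / 2, t1 + ρ / 2, h0, by linarith, by linarith, by linarith, hres⟩

/-- **Main theorem.** A gravity wave (any depth, any vorticity, no surface tension) whose velocity
potential is at each time a finite sum of space harmonics is the rest state. -/
theorem main (hg : 0 < g) (hw : GravityWave d g γ a b η ψ Φ q p)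
    (hfin : ∀ t ∈ Ioo a b, ∃ (M : ℕ) (c : ℤ → ℂ), ∀ z, InFluid d (η t) z →
      Φ t z = (ep M c z).re) :
    ∃ h0 : ℝ, ∀ t ∈ Ioo a b, (∀ x, η t x = h0) ∧ (∀ x, deriv (ψ t) x = 0) ∧
      ∀ z, InFluid d (η t) z → px Φ t z = 0 ∧ py Φ t z = 0 := by
  -- a property which is open in time and fails on rest intervals never holds
  have key : ∀ (P : ℝ → Prop), (∀ t ∈ Ioo a b, P t → ∀ᶠ s in 𝓝 t, P s) →
      (∀ s ∈ Ioo a b, (∀ x, η s x = η s 0) →
        (∀ z, InFluid d (η s) z → px Φ s z = 0 ∧ py Φ s z = 0) → ¬ P s) →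
      ∀ t ∈ Ioo a b, ¬ P t := by
    intro P hopen hrest t ht hP
    have hev := (hopen t ht hP)
    have hev2 : ∀ᶠ s in 𝓝 t, s ∈ Ioo a b := isOpen_Ioo.mem_nhds ht
    obtain ⟨r, hr, hr2⟩ := Metric.eventually_nhds_iff.1 (hev.and hev2)
    have hin : ∀ s ∈ Ioo (t - r) (t + r), P s ∧ s ∈ Ioo a b := by
      intro s hs
      apply hr2
      rw [Real.dist_eq, abs_lt]
      constructor <;> linarith [hs.1, hs.2]
    have hal : a ≤ t - r / 2 := (hin (t - r / 2) ⟨by linarith, by linarith⟩).2.1.le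
    have hbl : t + r / 2 ≤ b := (hin (t + r / 2) ⟨by linarith, by linarith⟩).2.2.le
    obtain ⟨a', b', h0, ha', hab', hb', hres⟩ := dense_rest hg hw hfin hal
      (by linarith : t - r / 2 < t + r / 2) hbl
    have hmid : (a' + b') / 2 ∈ Ioo a' b' := ⟨by linarith, by linarith⟩
    obtain ⟨hP', hI⟩ := hin ((a' + b') / 2) ⟨by linarith [hmid.1], by linarith [hmid.2]⟩
    obtain ⟨h1, h2⟩ := hres _ hmid
    exact hrest _ hI (fun x => by rw [h1 x, h1 0]) h2 hP'
  have hflat : ∀ t ∈ Ioo a b, ∀ x, η t x = η t 0 := by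
    intro t ht x
    by_contra hne
    refine key (fun s => η s x - η s 0 ≠ 0) ?_ ?_ t ht (sub_ne_zero.2 hne)
    · intro s hs hP
      have hca : ContinuousAt (fun s => η s x - η s 0) s :=
        (((eta_time' hw x).continuousOn).continuousAt (isOpen_Ioo.mem_nhds hs)).sub
          (((eta_time' hw 0).continuousOn).continuousAt (isOpen_Ioo.mem_nhds hs))
      exact hca.eventually_ne hP
    · intro s _ h1 _ h3
      exact h3 (sub_eq_zero.2 (h1 x))
  have hfluid_open : ∀ s ∈ Ioo a b, ∀ z, InFluid d (η s) z → ∀ᶠ s' in 𝓝 s, InFluid d (η s') z := by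
    intro s hs z hz
    have hca : ContinuousAt (fun s => η s z.re) s :=
      ((eta_time' hw z.re).continuousOn).continuousAt (isOpen_Ioo.mem_nhds hs)
    filter_upwards [hca.eventually (lt_mem_nhds hz.1)] with s' hs' using ⟨hs', hz.2⟩
  have hpx : ∀ t ∈ Ioo a b, ∀ z, InFluid d (η t) z → px Φ t z = 0 := by
    intro t ht z hz
    by_contra hne
    refine key (fun s => InFluid d (η s) z ∧ px Φ s z ≠ 0) ?_ ?_ t ht ⟨hz, hne⟩
    · intro s hs hP
      exact (hfluid_open s hs z hP.1).and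
        ((((px_time hw z).1).continuousAt (isOpen_Ioo.mem_nhds hs)).eventually_ne hP.2)
    · intro s _ _ h2 h3
      exact h3.2 (h2 z h3.1).1
  have hpy : ∀ t ∈ Ioo a b, ∀ z, InFluid d (η t) z → py Φ t z = 0 := by
    intro t ht z hz
    by_contra hne
    refine key (fun s => InFluid d (η s) z ∧ py Φ s z ≠ 0) ?_ ?_ t ht ⟨hz, hne⟩
    · intro s hs hP
      exact (hfluid_open s hs z hP.1).and
        ((((px_time hw z).2).continuousAt (isOpen_Ioo.mem_nhds hs)).eventually_ne hP.2)
    · intro s _ _ h2 h3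
      exact h3.2 (h2 z h3.1).2
  have hsurf : ∀ t ∈ Ioo a b, ∀ x, px Φ t (surf η t x) = 0 ∧ py Φ t (surf η t x) = 0 := by
    intro t ht x
    have hcl := surf_mem_closure (d := d) (fun h hh => hw.above h hh t ht) x
    have h1 : IsClosed {z : ℂ | px Φ t z = 0} := isClosed_eq (px_space hw ht).1 continuous_const
    have h2 : IsClosed {z : ℂ | py Φ t z = 0} := isClosed_eq (px_space hw ht).2 continuous_const
    exact ⟨closure_minimal (fun w hw' => hpx t ht w hw') h1 hcl,
      closure_minimal (fun w hw' => hpy t ht w hw') h2 hcl⟩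
  have hetax : ∀ t ∈ Ioo a b, ∀ x, etax η t x = 0 := by
    intro t ht x
    have h1 : η t = fun _ => η t 0 := funext (hflat t ht)
    unfold etax
    rw [h1]
    simp
  have hηt : ∀ t ∈ Ioo a b, deriv (fun s => η s 0) t = 0 := by
    intro t ht
    rw [hw.kin t ht 0, hetax t ht]
    unfold DN
    rw [(hsurf t ht 0).1, (hsurf t ht 0).2]
    ring
  rcases (Ioo a b).eq_empty_or_nonempty with he | ⟨t0, ht0⟩
  · refine ⟨0, fun t ht => ?_⟩
    rw [he] at ht
    exact absurd ht (notMem_empty t)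
  refine ⟨η t0 0, fun t ht => ⟨fun x => ?_, fun x => ?_, fun z hz => ⟨hpx t ht z hz, hpy t ht z hz⟩⟩⟩
  · rw [hflat t ht x]
    exact isOpen_Ioo.is_const_of_deriv_eq_zero isPreconnected_Ioo
      ((eta_time' hw 0).differentiableOn (by norm_num)) (fun s hs => hηt s hs) ht ht0
  · have h1 : ψ t = fun y => Φ t (pt (η t) y) := funext fun y => hw.trace t ht y
    have h2 : HasDerivAt (η t) 0 x := by
      have h3 : η t = fun _ => η t 0 := funext (hflat t ht)
      rw [h3]
      exact hasDerivAt_const x _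
    have h3 : HasDerivAt (pt (η t)) (1 + ((fun _ => 0 : ℝ → ℝ) x : ℂ) * I) x :=
      hasDerivAt_pt (f' := fun _ => 0) h2
    have h4 : HasFDerivAt (Φ t) (fderiv ℝ (Φ t) (pt (η t) x)) (pt (η t) x) :=
      (((Phi_space hw ht).differentiable (by norm_num)) _).hasFDerivAt
    have h5 := h4.comp_hasDerivAt x h3
    have h6 : HasDerivAt (ψ t) (fderiv ℝ (Φ t) (pt (η t) x)
        (1 + ((fun _ => 0 : ℝ → ℝ) x : ℂ) * I)) x := by
      rw [h1]; exact h5
    rw [h6.deriv]
    have h7 : (1 + ((fun _ => 0 : ℝ → ℝ) x : ℂ) * I) = 1 := by simp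
    rw [h7]
    exact (hsurf t ht x).1

end

end WW62
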