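import Pool.Agent.WW62.Explicit
import Pool.Agent.WW47.Wave

/-!
# Gravity waves of any depth; potentials with finitely many harmonics
-/

open Complex Filter Topology Set WW47.M4 InnerProductSpace

namespace WW62

open WW47 (px py surf etax DN)

/-- the open fluid domain below the surface `η0` (and above the bottom `y = -h` if the depth is
`some h`; `none` means infinite depth) -/
def InFluid (d : Option ℝ) (η0 : ℝ → ℝ) (z : ℂ) : Prop :=
  z.im < η0 z.re ∧ ∀ h, d = some h → -h < z.im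

/-- A classical solution, on the time interval from `a` to `b`, of the space periodic gravity water
waves equations (no surface tension) with depth `d` (`none`: infinite depth), gravity `g` and
constant vorticity `γ`. `Φ` is the (generalised) velocity potential, `q = ∂_x⁻¹ G(η)ψ` up to a
function of time, and `p` is the Bernoulli constant. -/
structure GravityWave (d : Option ℝ) (g γ a b : ℝ) (η ψ : ℝ → ℝ → ℝ) (Φ : ℝ → ℂ → ℝ)
    (q : ℝ → ℝ → ℝ) (p : ℝ → ℝ) : Prop where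
  regη : ContDiffOn ℝ 1 (fun P : ℝ × ℝ => η P.1 P.2) (Ioo a b ×ˢ univ)
  regΦ : ContDiffOn ℝ 2 (fun P : ℝ × ℂ => Φ P.1 P.2) (Ioo a b ×ˢ univ)
  perη : ∀ t ∈ Ioo a b, ∀ x, η t (x + 2 * Real.pi) = η t x
  perΦ : ∀ t ∈ Ioo a b, ∀ z, InFluid d (η t) z → Φ t (z + 2 * Real.pi) = Φ t z
  above : ∀ h, d = some h → ∀ t ∈ Ioo a b, ∀ x, -h < η t x
  harm : ∀ t ∈ Ioo a b, ∀ z : ℂ, InFluid d (η t) z → HarmonicAt (Φ t) z
  decay : d = none → ∀ t ∈ Ioo a b, ∀ ε > 0, ∃ Y : ℝ, ∀ z : ℂ, z.im < Y →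
    |px Φ t z| ≤ ε ∧ |py Φ t z| ≤ ε
  bottom : ∀ h, d = some h → ∀ t ∈ Ioo a b, ∀ x : ℝ, py Φ t (x - h * I) = 0
  trace : ∀ t ∈ Ioo a b, ∀ x, ψ t x = Φ t (surf η t x)
  kin : ∀ t ∈ Ioo a b, ∀ x,
    deriv (fun s => η s x) t = DN Φ η t x + γ * η t x * etax η t x
  perq : ∀ t ∈ Ioo a b, ∀ x, q t (x + 2 * Real.pi) = q t x
  derq : ∀ t ∈ Ioo a b, ∀ x, HasDerivAt (q t) (DN Φ η t x) x
  dyn : ∀ t ∈ Ioo a b, ∀ x,
    deriv (fun s => ψ s x) t = -g * η t x - deriv (ψ t) x ^ 2 / 2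
      + (etax η t x * deriv (ψ t) x + DN Φ η t x) ^ 2 / (2 * (1 + etax η t x ^ 2))
      + γ * η t x * deriv (ψ t) x + γ * q t x + p t

/-- `e^{-2h}`, or `0` for infinite depth -/
noncomputable def theta (d : Option ℝ) : ℝ := match d with
  | none => 0
  | some h => Real.exp (-(2 * h))

lemma theta_nonneg (d : Option ℝ) : 0 ≤ theta d := by
  cases d with
  | none => exact le_rfl
  | some h => exact (Real.exp_pos _).le

/-! ### Fourier coefficients on lines -/

/-- The real part of an exponential sum on a horizontal line. -/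
lemma re_line (M : ℕ) (b : ℤ → ℂ) (x h : ℝ) :
    (((ep M b (x + h * I)).re : ℝ) : ℂ) = WW47.tp M (fun k =>
      (b (-k) * exp (-(k * h)) + (starRingEnd ℂ) (b k) * exp (k * h)) / 2) x := by
  have h1 : ep M b (x + h * I) = WW47.tp M (fun k => b (-k) * exp (-(k * h))) x := by
    unfold WW47.tp ep
    rw [← reindex M (fun k => b k * exp (-(I * k * (x + h * I))))]
    refine Finset.sum_congr rfl fun k _ => ?_
    have e : exp (-(I * ((-k : ℤ) : ℂ) * (x + h * I))) = exp (-(k * h)) * exp (I * k * x) := by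
      rw [← exp_add]
      congr 1
      push_cast
      ring_nf
      rw [I_sq]
      ring
    simp only [e]
    ring
  have h2 : (starRingEnd ℂ) (ep M b (x + h * I)) =
      WW47.tp M (fun k => (starRingEnd ℂ) (b k) * exp (k * h)) x := by
    rw [← tp_bar]
    unfold WW47.tp bar
    refine Finset.sum_congr rfl fun k _ => ?_
    have e : exp (I * k * (starRingEnd ℂ) ((x : ℂ) + h * I)) = exp (k * h) * exp (I * k * x) := by
      rw [← exp_add]
      congr 1
      simp only [map_add, map_mul, conj_ofReal, conj_I]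
      ring_nf
      rw [I_sq]
      ring
    simp only [e]
    ring
  have h3 : (((ep M b (x + h * I)).re : ℝ) : ℂ) =
      (ep M b (x + h * I) + (starRingEnd ℂ) (ep M b (x + h * I))) / 2 := by
    rw [add_conj]
    push_cast
    ring
  rw [h3, h2, h1]
  unfold WW47.tp
  rw [← Finset.sum_add_distrib, Finset.sum_div]
  refine Finset.sum_congr rfl fun k _ => ?_
  ring

lemma sym_of_bottom {M : ℕ} {c : ℤ → ℂ} {h : ℝ}
    (hb : ∀ x : ℝ, (ep M (dz c) (x - h * I)).im = 0) {k : ℕ} (hk : 1 ≤ k) (hkM : k ≤ M) :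
    c (-(k : ℤ)) = ((Real.exp (-(2 * h)) : ℝ) : ℂ) ^ k * (starRingEnd ℂ) (c k) := by
  have hmem : (k : ℤ) ∈ Finset.Icc (-(M : ℤ)) M := by
    rw [Finset.mem_Icc]; omega
  have e1 : ∀ x : ℝ, (((ep M (dz c) (x + (-h : ℝ) * I)).im : ℝ) : ℂ) =
      WW47.tp M (fun _ => 0) x := by
    intro x
    have : ((x : ℂ) + ((-h : ℝ) : ℂ) * I) = x - h * I := by push_cast; ring
    rw [this, hb x]
    simp [WW47.tp]
  have e2 := WW47.coef_tp (f := fun x : ℝ => (ep M (dz c) (x + (-h : ℝ) * I)).im) e1 hmem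
  have e3 := WW47.coef_tp (f := fun x : ℝ => (ep M (dz c) (x + (-h : ℝ) * I)).im)
    (fun x => im_line M (dz c) x (-h)) hmem
  rw [e2] at e3
  have h2I : (2 * I : ℂ) ≠ 0 := by simp
  have e4 := (div_eq_zero_iff.1 e3.symm).resolve_right h2I
  unfold dz at e4
  simp only [map_mul, map_neg, conj_I, map_natCast, Int.cast_neg, Int.cast_natCast,
    ofReal_neg] at e4
  have hKC : (k : ℂ) ≠ 0 := by
    have : k ≠ 0 := by omega
    exact_mod_cast this
  have e6 : I * (k : ℂ) * (c (-(k : ℤ)) * exp (k * h) - (starRingEnd ℂ) (c k) * exp (-(k * h)))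
      = 0 := by
    have h8 : -((k : ℂ) * -(h : ℂ)) = k * h := by ring
    have h9 : ((k : ℂ) * -(h : ℂ)) = -(k * h) := by ring
    rw [h8, h9] at e4
    linear_combination e4
  have e7 := (mul_eq_zero.1 e6).resolve_left (mul_ne_zero I_ne_zero hKC)
  have e8 : ((Real.exp (-(2 * h)) : ℝ) : ℂ) ^ k = exp (-(k * h)) * exp (-(k * h)) := by
    rw [ofReal_exp, ← exp_nat_mul, ← exp_add]
    congr 1
    push_cast
    ring
  have e9 : exp ((k : ℂ) * h) * exp (-(k * h)) = 1 := by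
    rw [← exp_add]; simp
  rw [e8]
  linear_combination (exp (-(k * h))) * e7 - (c (-(k : ℤ))) * e9

lemma sym_of_decay {M : ℕ} {c : ℤ → ℂ}
    (hb : ∀ ε > 0, ∃ Y : ℝ, ∀ z : ℂ, z.im < Y → |(ep M (dz c) z).re| ≤ ε ∧
      |(ep M (dz c) z).im| ≤ ε) {k : ℕ} (hk : 1 ≤ k) (hkM : k ≤ M) :
    c (-(k : ℤ)) = 0 := by
  set b' : ℤ → ℂ := fun j => dz c (-j) with hb'
  have h1 : ∀ z, ep M (dz c) z = WW47.tp M b' z := by
    intro z
    unfold WW47.tp ep
    rw [← reindex M (fun k => dz c k * exp (-(I * k * z)))]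
    refine Finset.sum_congr rfl fun k _ => ?_
    simp only [hb']
    congr 2
    push_cast
    ring
  have hlead : Lead 0 (WW47.tp M b') 0 := by
    unfold Lead
    rw [Metric.tendsto_nhds]
    intro ε hε
    obtain ⟨Y, hY⟩ := hb (ε / 4) (by positivity)
    filter_upwards [eventually_gt_atTop (-Y)] with s hs
    have h2 := hY (-(I * s)) (by simp; linarith)
    rw [← h1]
    simp only [Int.cast_zero, zero_mul, neg_zero, exp_zero, mul_one, dist_zero_right]
    calc _ ≤ |(ep M (dz c) (-(I * s))).re| + |(ep M (dz c) (-(I * s))).im| :=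
          norm_le_abs_re_add_abs_im _
      _ < ε := by linarith [h2.1, h2.2]
  have hkey : b' k = 0 := by
    by_contra hne
    have hmem : (k : ℤ) ∈ Finset.Icc (-(M : ℤ)) M := by
      rw [Finset.mem_Icc]; omega
    obtain ⟨j, hj, hbj, hjt⟩ := WW47.exists_top ⟨(k : ℤ), hmem, hne⟩
    have hj0 : (k : ℤ) ≤ j := by
      by_contra hlt
      exact hne (hjt _ hmem (by omega))
    have h2 := lead_tp_top hjt
    rw [if_pos hj] at h2
    exact hbj (h2.unique (hlead.zero_of_lt (by omega)))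
  simp only [hb', dz] at hkey
  have hKC : (k : ℂ) ≠ 0 := by
    have : k ≠ 0 := by omega
    exact_mod_cast this
  push_cast at hkey
  exact (mul_eq_zero.1 hkey).resolve_left (neg_ne_zero.2 (mul_ne_zero I_ne_zero
    (neg_ne_zero.2 hKC)))

/-! ### Canonical coefficients -/

/-- positive canonical coefficients -/
noncomputable def cpos (θ y0 : ℝ) (M : ℕ) (φ : ℝ → ℝ) (k : ℕ) : ℂ :=
  2 * WW47.coef M φ (-(k : ℤ)) / ((Real.exp (k * y0) + θ ^ k * Real.exp (-(k * y0)) : ℝ) : ℂ)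

/-- canonical coefficients of a potential with values `φ` on the line `y = y0` -/
noncomputable def cc (θ y0 : ℝ) (M : ℕ) (φ : ℝ → ℝ) (k : ℤ) : ℂ :=
  if |k| ≤ (M : ℤ) then
    (if k = 0 then WW47.coef M φ 0 else
      if 0 < k then cpos θ y0 M φ k.toNat else
        ((θ ^ (-k).toNat : ℝ) : ℂ) * (starRingEnd ℂ) (cpos θ y0 M φ (-k).toNat))
  else 0

lemma cc_big {θ y0 : ℝ} {M : ℕ} {φ : ℝ → ℝ} {k : ℤ} (hk : (M : ℤ) < k) : cc θ y0 M φ k = 0 := by
  unfold cc
  rw [if_neg]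
  rw [abs_le]
  omega

lemma cc_sym {θ y0 : ℝ} {M : ℕ} {φ : ℝ → ℝ} {k : ℕ} (hk : 1 ≤ k) :
    cc θ y0 M φ (-(k : ℤ)) = (θ : ℂ) ^ k * (starRingEnd ℂ) (cc θ y0 M φ k) := by
  unfold cc
  by_cases h : k ≤ M
  · rw [if_pos (by rw [abs_le]; omega), if_neg (by omega), if_neg (by omega),
      if_pos (by rw [abs_le]; omega), if_neg (by omega), if_pos (by omega)]
    have h1 : (-(-(k : ℤ))).toNat = k := by omega
    have h2 : ((k : ℤ)).toNat = k := by omega
    rw [h1, h2]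
    push_cast
    rfl
  · rw [if_neg (by rw [abs_le]; omega), if_neg (by rw [abs_le]; omega), map_zero, mul_zero]

lemma cc_pos {θ y0 : ℝ} {M : ℕ} {φ : ℝ → ℝ} {k : ℕ} (hk : 1 ≤ k) (hkM : k ≤ M) :
    cc θ y0 M φ k = cpos θ y0 M φ k := by
  unfold cc
  rw [if_pos (by rw [abs_le]; omega), if_neg (by omega), if_pos (by omega)]
  rfl

lemma cc_zero {θ y0 : ℝ} {M : ℕ} {φ : ℝ → ℝ} : cc θ y0 M φ 0 = WW47.coef M φ 0 := by
  unfold cc
  rw [if_pos (by simp), if_pos rfl]

/-- The canonical coefficients represent the potential. -/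
lemma re_ep_cc {θ y0 : ℝ} (hθ : 0 ≤ θ) {M : ℕ} {φ : ℝ → ℝ} {c : ℤ → ℂ}
    (hφ : ∀ x : ℝ, φ x = (ep M c (x + y0 * I)).re)
    (hsym : ∀ k : ℕ, 1 ≤ k → k ≤ M → c (-(k : ℤ)) = (θ : ℂ) ^ k * (starRingEnd ℂ) (c k)) (z : ℂ) :
    (ep M (cc θ y0 M φ) z).re = (ep M c z).re := by
  have hline : ∀ x : ℝ, ((φ x : ℝ) : ℂ) = WW47.tp M (fun k =>
      (c (-k) * exp (-(k * y0)) + (starRingEnd ℂ) (c k) * exp (k * y0)) / 2) x := by
    intro x
    rw [hφ x, re_line]
  have hcoef : ∀ k ∈ Finset.Icc (-(M : ℤ)) M, WW47.coef M φ k =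
      (c (-k) * exp (-(k * y0)) + (starRingEnd ℂ) (c k) * exp (k * y0)) / 2 :=
    fun k hk => WW47.coef_tp hline hk
  have hposk : ∀ k : ℕ, 1 ≤ k → k ≤ M → cpos θ y0 M φ k = c k := by
    intro k hk hkM
    unfold cpos
    have hden : 0 < Real.exp (k * y0) + θ ^ k * Real.exp (-(k * y0)) := by
      have := Real.exp_pos (k * y0)
      positivity
    have hdenC : ((Real.exp (k * y0) + θ ^ k * Real.exp (-(k * y0)) : ℝ) : ℂ) ≠ 0 := by
      exact_mod_cast hden.ne'
    rw [hcoef (-(k : ℤ)) (by rw [Finset.mem_Icc]; omega), div_eq_iff hdenC, neg_neg,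
      hsym k hk hkM, map_mul, map_pow, conj_ofReal, conj_conj]
    push_cast
    have h8 : (-(-(k : ℂ) * (y0 : ℂ))) = k * y0 := by ring
    have h9 : (-(k : ℂ) * (y0 : ℂ)) = -(k * y0) := by ring
    rw [h8, h9]
    ring
  have hne : ∀ k : ℤ, k ∈ Finset.Icc (-(M : ℤ)) M → k ≠ 0 → cc θ y0 M φ k = c k := by
    intro k hk hk0
    rw [Finset.mem_Icc] at hk
    obtain ⟨n, rfl | rfl⟩ := k.eq_nat_or_neg
    · rw [cc_pos (by omega) (by omega), hposk n (by omega) (by omega)]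
    · rw [cc_sym (by omega), cc_pos (by omega) (by omega), hposk n (by omega) (by omega),
        hsym n (by omega) (by omega)]
  have h0 : (cc θ y0 M φ 0).re = (c 0).re := by
    rw [cc_zero, hcoef 0 (by rw [Finset.mem_Icc]; omega)]
    simp only [neg_zero, Int.cast_zero, zero_mul, exp_zero, mul_one]
    have : (c 0 + (starRingEnd ℂ) (c 0)) / 2 = ((c 0).re : ℂ) := by
      rw [add_conj]; push_cast; ring
    rw [this, ofReal_re]
  unfold ep
  rw [re_sum, re_sum]
  refine Finset.sum_congr rfl fun k hk => ?_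
  by_cases hk0 : k = 0
  · rw [hk0]
    simp only [Int.cast_zero, mul_zero, zero_mul, neg_zero, exp_zero, mul_one]
    exact h0
  · rw [hne k hk hk0]

lemma contDiffOn_coef {J : Set ℝ} {M : ℕ} {φ : ℝ → ℝ → ℝ}
    (h : ∀ x, ContDiffOn ℝ 2 (fun t => φ t x) J) (k : ℤ) :
    ContDiffOn ℝ 2 (fun t => WW47.coef M (φ t) k) J := by
  unfold WW47.coef
  refine contDiffOn_const.mul (ContDiffOn.sum fun j _ => ?_)
  exact (Complex.ofRealCLM.contDiff.comp_contDiffOn (h _)).mul contDiffOn_const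

lemma contDiffOn_cc {J : Set ℝ} {θ y0 : ℝ} {M : ℕ} {φ : ℝ → ℝ → ℝ}
    (h : ∀ x, ContDiffOn ℝ 2 (fun t => φ t x) J) (k : ℤ) :
    ContDiffOn ℝ 2 (fun t => cc θ y0 M (φ t) k) J := by
  have hpos : ∀ n : ℕ, ContDiffOn ℝ 2 (fun t => cpos θ y0 M (φ t) n) J := by
    intro n
    unfold cpos
    exact (contDiffOn_const.mul (contDiffOn_coef h _)).div_const _
  unfold cc
  split_ifs
  · exact contDiffOn_coef h 0
  · exact hpos _
  · refine contDiffOn_const.mul ?_
    exact (Complex.conjCLE : ℂ →L[ℝ] ℂ).contDiff.comp_contDiffOn (hpos _)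
  · exact contDiffOn_const

end WW62
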