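import Pool.Agent.WW62.Calc

/-!
# The eliminated relation is not identically zero
-/

open Complex Filter Topology Set WW47.M4

namespace WW62

/-- the relation obtained by eliminating `y` -/
noncomputable def QQ (M : ℕ) (g γ p p' : ℝ) (c c1 c2 : ℤ → ℂ) : ℂ × ℂ → ℂ :=
  RA M g γ c * RA M g γ c * S0 M g γ p' c c1 c2 - RA M g γ c * RC M γ p c c1 * S1 M γ c c1
    + RC M γ p c c1 * RC M γ p c c1 * S2 M γ c

lemma QQ_mem (M : ℕ) (g γ p p' : ℝ) (c c1 c2 : ℤ → ℂ) : QQ M g γ p p' c c1 c2 ∈ LP :=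
  LP.add_mem (LP.sub_mem (LP.mul_mem (LP.mul_mem (RA_mem _ _ _ _) (RA_mem _ _ _ _))
    (S0_mem _ _ _ _ _ _ _)) (LP.mul_mem (LP.mul_mem (RA_mem _ _ _ _) (RC_mem _ _ _ _ _))
    (S1_mem _ _ _ _))) (LP.mul_mem (LP.mul_mem (RC_mem _ _ _ _ _) (RC_mem _ _ _ _ _))
    (S2_mem _ _ _))

lemma QQ_zero (M : ℕ) {g γ p p' : ℝ} {c c1 c2 : ℤ → ℂ} {P : ℂ × ℂ} {y : ℂ}
    (h1 : RC M γ p c c1 P + RA M g γ c P * y = 0)
    (h2 : S0 M g γ p' c c1 c2 P + S1 M γ c c1 P * y + S2 M γ c P * y ^ 2 = 0) :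
    QQ M g γ p p' c c1 c2 P = 0 := by
  unfold QQ
  simp only [Pi.add_apply, Pi.sub_apply, Pi.mul_apply]
  linear_combination (RA M g γ c P) ^ 2 * h2 - (RA M g γ c P * S1 M γ c c1 P
    + S2 M γ c P * (RA M g γ c P * y - RC M γ p c c1 P)) * h1

lemma Lead.cast {m n : ℤ} {f : ℂ → ℂ} {a : ℂ} (h : Lead m f a) (hmn : m = n) : Lead n f a :=
  hmn ▸ h

lemma lead_const (a : ℂ) : Lead 0 (fun _ : ℂ => a) a := by
  have h := lead_one.smul a
  rw [mul_one] at h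
  have h2 : (a • (1 : ℂ → ℂ)) = fun _ => a := by
    funext x; simp
  rwa [h2] at h

lemma lead_const_pos (a : ℂ) {n : ℤ} (hn : 0 < n) : Lead n (fun _ : ℂ => a) 0 :=
  (lead_const a).zero_of_lt hn

lemma lead_L2 {M K : ℕ} (hKM : K ≤ M) {b : ℤ → ℂ} (hb : ∀ k : ℤ, (K : ℤ) < k → b k = 0) (p : ℂ) :
    Lead K (fun r => L2 M b (p, r)) ((starRingEnd ℂ) (b K)) := by
  have h := lead_tp_top (M := M) (b := bar b) (j := K) (fun k _ hk => by
    simp [bar, hb k hk])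
  rw [if_pos (by rw [Finset.mem_Icc]; omega)] at h
  exact h

lemma lead_L1 (M : ℕ) (b : ℤ → ℂ) (p : ℂ) :
    Lead 0 (fun r => L1 M b (p, r)) (ep M b p) := lead_const _

lemma ep_const {M K : ℕ} (hK : 1 ≤ K) (hKM : K ≤ M) {b : ℤ → ℂ}
    (hb : ∀ k : ℤ, (K : ℤ) < k → b k = 0) {C : ℂ} (h : ∀ p, ep M b p = C) : b K = 0 := by
  have h1 : WW47.tp M b = fun _ => C := by
    funext r
    rw [← h (-r)]
    unfold WW47.tp ep
    refine Finset.sum_congr rfl fun k _ => ?_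
    congr 2
    ring
  have h2 := lead_tp_top (M := M) (b := b) (j := K) (fun k _ hk => hb k hk)
  rw [if_pos (by rw [Finset.mem_Icc]; omega), h1] at h2
  exact h2.unique (lead_const_pos C (by omega))

lemma dz_van {K : ℕ} {b : ℤ → ℂ} (hb : ∀ k : ℤ, (K : ℤ) < k → b k = 0) :
    ∀ k : ℤ, (K : ℤ) < k → dz b k = 0 := by
  intro k hk
  simp [dz, hb k hk]

lemma lead_S0 {M K : ℕ} (hK : 1 ≤ K) (hKM : K ≤ M) (g γ p' : ℝ) {c c1 c2 : ℤ → ℂ}
    (hc : ∀ k : ℤ, (K : ℤ) < k → c k = 0) (hc1 : ∀ k : ℤ, (K : ℤ) < k → c1 k = 0)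
    (hc2 : ∀ k : ℤ, (K : ℤ) < k → c2 k = 0) (p : ℂ) :
    Lead (K + K) (fun r => S0 M g γ p' c c1 c2 (p, r))
      ((1 / 2 : ℂ) * (ep M (dz (dz c)) p * ((starRingEnd ℂ) (dz c K) * (starRingEnd ℂ) (dz c K)))
        - (γ : ℂ) / (4 * I) * ((starRingEnd ℂ) (dz c K) * (starRingEnd ℂ) (dz c K))) := by
  have hK0 : (0 : ℤ) < K := by omega
  have lv := lead_L2 hKM (dz_van hc) p
  have lv1 := lead_L2 hKM (dz_van (dz_van hc)) p
  have lc1 := lead_L2 hKM hc1 p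
  have lc2 := lead_L2 hKM hc2 p
  have lvt := lead_L2 hKM (dz_van hc1) p
  have m1 := lead_L1 M (dz (dz c)) p
  have mv := lead_L1 M (dz c) p
  have mvt := lead_L1 M (dz c1) p
  have mc1 := lead_L1 M c1 p
  have mc2 := lead_L1 M c2 p
  have a1 := (((mc2.zero_of_lt hK0).add lc2).smul (1 / 2)).zero_of_lt (n := (K : ℤ) + K) (by omega)
  have a2 := (Lead.cast (mvt.mul lv) (n := K) (by omega)).add
    (Lead.cast (lvt.mul mv) (n := K) (by omega))
  have a2' := a2.zero_of_lt (n := (K : ℤ) + K) (by omega)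
  have a3 := ((Lead.cast (m1.mul (lv.mul lv)) (n := (K : ℤ) + K) (by omega)).add
    ((lv1.mul (mv.mul mv)).zero_of_lt (n := (K : ℤ) + K) (by omega))).smul (1 / 2)
  have a4 := (((mc1.zero_of_lt hK0).sub lc1).smul ((γ : ℂ) / (2 * I))).zero_of_lt
    (n := (K : ℤ) + K) (by omega)
  have a5 := (((mv.mul mv).zero_of_lt (n := (K : ℤ) + K) (by omega)).sub (lv.mul lv)).smul
    ((γ : ℂ) / (4 * I))
  have a6 := ((lv.sub (mv.zero_of_lt hK0)).smul ((g : ℂ) / (2 * I))).zero_of_lt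
    (n := (K : ℤ) + K) (by omega)
  have a7 := lead_const_pos (p' : ℂ) (n := (K : ℤ) + K) (by omega)
  have h := (((((a1.add a2').add a3).add a4).add a5).add a6).sub a7
  have hval : (1 / 2 : ℂ) * (ep M (dz (dz c)) p * ((starRingEnd ℂ) (dz c K) *
      (starRingEnd ℂ) (dz c K))) - (γ : ℂ) / (4 * I) * ((starRingEnd ℂ) (dz c K) *
        (starRingEnd ℂ) (dz c K)) =
      0 + 0 + 1 / 2 * (ep M (dz (dz c)) p * ((starRingEnd ℂ) (dz c ↑K) *
        (starRingEnd ℂ) (dz c ↑K)) + 0) + 0 +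
        (γ : ℂ) / (4 * I) * (0 - (starRingEnd ℂ) (dz c ↑K) * (starRingEnd ℂ) (dz c ↑K)) + 0 - 0 := by
    ring
  rw [hval]
  exact h

theorem QQ_ne {M K : ℕ} (hK : 1 ≤ K) (hKM : K ≤ M) {g : ℝ} (hg : 0 < g) (γ p p' : ℝ)
    {c c1 c2 : ℤ → ℂ}
    (hc : ∀ k : ℤ, (K : ℤ) < k → c k = 0) (hc1 : ∀ k : ℤ, (K : ℤ) < k → c1 k = 0)
    (hc2 : ∀ k : ℤ, (K : ℤ) < k → c2 k = 0) (hcK : c K ≠ 0) :
    QQ M g γ p p' c c1 c2 ≠ 0 := by
  intro h0
  have hK0 : (0 : ℤ) < K := by omega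
  have hKC : (K : ℂ) ≠ 0 := by
    have : K ≠ 0 := by omega
    exact_mod_cast this
  set vK := (starRingEnd ℂ) (dz c K) with hvK
  have hvK0 : vK ≠ 0 := by
    rw [hvK, ne_eq, map_eq_zero]
    unfold dz
    push_cast
    exact mul_ne_zero (neg_ne_zero.2 (mul_ne_zero I_ne_zero hKC)) hcK
  have hfin : ∀ C : ℂ, ¬ ∀ q, ep M (dz (dz c)) q = C := by
    intro C hC
    have h1 := ep_const hK hKM (dz_van (dz_van hc)) hC
    unfold dz at h1
    push_cast at h1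
    exact (mul_ne_zero (neg_ne_zero.2 (mul_ne_zero I_ne_zero hKC))
      (mul_ne_zero (neg_ne_zero.2 (mul_ne_zero I_ne_zero hKC)) hcK)) h1
  have lzero : ∀ n : ℤ, Lead n (fun _ : ℂ => (0 : ℂ)) 0 := by
    intro n
    unfold Lead
    simp
  by_cases hγ : γ = 0
  · apply hfin 0
    intro q
    have lS := lead_S0 hK hKM g γ p' hc hc1 hc2 q
    have e1 : ∀ r, S0 M g γ p' c c1 c2 (q, r) = 0 := by
      intro r
      have h1 := congrFun h0 (q, r)
      have hA : RA M g γ c (q, r) = g := by simp [RA, hγ]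
      have hS1 : S1 M γ c c1 (q, r) = 0 := by simp [S1, hγ]
      have hS2 : S2 M γ c (q, r) = 0 := by simp [S2, hγ]
      simp only [QQ, Pi.add_apply, Pi.sub_apply, Pi.mul_apply, Pi.zero_apply] at h1
      rw [hA, hS1, hS2, mul_zero, mul_zero, sub_zero, add_zero] at h1
      have hgC : (g : ℂ) ≠ 0 := by exact_mod_cast hg.ne'
      exact (mul_eq_zero.1 h1).resolve_left (mul_ne_zero hgC hgC)
    have e2 : (fun r => S0 M g γ p' c c1 c2 (q, r)) = fun _ => 0 := funext e1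
    rw [e2] at lS
    have h2 := lS.unique (lzero _)
    rw [hγ, ofReal_zero, zero_div, zero_mul, sub_zero, ← hvK] at h2
    have h3 : ep M (dz (dz c)) q * (vK * vK) = 0 := by linear_combination 2 * h2
    exact (mul_eq_zero.1 h3).resolve_right (mul_ne_zero hvK0 hvK0)
  · apply hfin ((γ : ℂ) / (2 * I))
    intro q
    have hγC : (γ : ℂ) ≠ 0 := by exact_mod_cast hγ
    have lS := lead_S0 hK hKM g γ p' hc hc1 hc2 q
    have lv := lead_L2 hKM (dz_van hc) q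
    have lv1 := lead_L2 hKM (dz_van (dz_van hc)) q
    have lc := lead_L2 hKM hc q
    have lc1 := lead_L2 hKM hc1 q
    have lvt := lead_L2 hKM (dz_van hc1) q
    have m1 := lead_L1 M (dz (dz c)) q
    have mv := lead_L1 M (dz c) q
    have mvt := lead_L1 M (dz c1) q
    have mc := lead_L1 M c q
    have mc1 := lead_L1 M c1 q
    have lA := (lead_const_pos (g : ℂ) hK0).sub (((mv.zero_of_lt hK0).add lv).smul ((γ : ℂ) / 2))
    have lC := (((((mc1.zero_of_lt hK0).add lc1).smul (1 / 2)).add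
      ((Lead.cast (mv.mul lv) (n := K) (by omega)).smul (1 / 2))).add
      (((mc.zero_of_lt hK0).sub lc).smul ((γ : ℂ) / (2 * I)))).sub
      (lead_const_pos (p : ℂ) hK0)
    have l1 := ((((mvt.zero_of_lt hK0).add lvt).smul (-(γ : ℂ))).add
      (((Lead.cast (m1.mul lv) (n := K) (by omega)).add
        (Lead.cast (lv1.mul mv) (n := K) (by omega))).smul (-(γ : ℂ)))).add
      (((mv.zero_of_lt hK0).sub lv).smul (-((γ : ℂ) ^ 2 / (2 * I))))
    have l2 := ((m1.zero_of_lt hK0).add lv1).smul ((γ : ℂ) ^ 2 / 2)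
    have b1 := (lA.mul lA).mul lS
    have b2 := ((lA.mul lC).mul l1).zero_of_lt (n := (K : ℤ) + K + (K + K)) (by omega)
    have b3 := ((lC.mul lC).mul l2).zero_of_lt (n := (K : ℤ) + K + (K + K)) (by omega)
    have b4 := (b1.sub b2).add b3
    have b5 : Lead ((K : ℤ) + K + (K + K)) (fun _ : ℂ => (0 : ℂ))
        ((0 - (γ : ℂ) / 2 * (0 + vK)) * (0 - (γ : ℂ) / 2 * (0 + vK)) *
          ((1 / 2 : ℂ) * (ep M (dz (dz c)) q * (vK * vK)) - (γ : ℂ) / (4 * I) * (vK * vK)) - 0 + 0) := by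
      have e3 : (fun _ : ℂ => (0 : ℂ)) = fun r => QQ M g γ p p' c c1 c2 (q, r) := by
        funext r; rw [h0]; rfl
      rw [e3]
      exact b4
    have h2 := b5.unique (lzero _)
    have h3 : ((γ : ℂ) ^ 2 / 4 * (vK * vK) * (vK * vK)) *
        ((1 / 2 : ℂ) * ep M (dz (dz c)) q - (γ : ℂ) / (4 * I)) = 0 := by
      linear_combination h2
    have h4 : ((γ : ℂ) ^ 2 / 4 * (vK * vK) * (vK * vK)) ≠ 0 :=
      mul_ne_zero (mul_ne_zero (div_ne_zero (pow_ne_zero 2 hγC) (by norm_num))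
        (mul_ne_zero hvK0 hvK0)) (mul_ne_zero hvK0 hvK0)
    have h5 := (mul_eq_zero.1 h3).resolve_left h4
    have h6 : (γ : ℂ) / (2 * I) = 2 * ((γ : ℂ) / (4 * I)) := by
      field_simp
      norm_num
    rw [h6]
    linear_combination 2 * h5

end WW62
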